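import Mathlib
import Pool.Agent.H83.Lo.Montel

/-!
# The closing lemma of Route 3

From `G φ * A + G (φ + π / 2) * B = 0` on the line `Re φ = π / 4` for a function `G` analytic in the strip
`0 < Re φ < π`, bounded by `C * exp (Im φ)` and symmetric under `φ ↦ π - conj φ`, one gets `A = I * B`.
-/

namespace Pool.Agent.H25.Q1.Close

open Complex Set Filter Topology

/-- The open strip of the closing lemma. -/
def U : Set ℂ := {z | Real.pi / 16 < z.re ∧ z.re < 15 * Real.pi / 16}

/-- The left part of the strip. -/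
def V : Set ℂ := {z | Real.pi / 16 < z.re ∧ z.re < 7 * Real.pi / 16}

theorem isOpen_U : IsOpen U :=
  (isOpen_lt continuous_const continuous_re).inter (isOpen_lt continuous_re continuous_const)

theorem isOpen_V : IsOpen V :=
  (isOpen_lt continuous_const continuous_re).inter (isOpen_lt continuous_re continuous_const)

theorem convex_U : Convex ℝ U :=
  (convex_halfSpace_re_gt _).inter (convex_halfSpace_re_lt _)

theorem convex_V : Convex ℝ V :=
  (convex_halfSpace_re_gt _).inter (convex_halfSpace_re_lt _)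

theorem V_subset_U : V ⊆ U := by
  rintro z ⟨h1, h2⟩
  exact ⟨h1, by have := Real.pi_pos; linarith⟩

theorem shift_mem {z : ℂ} (hz : z ∈ V) : z + (Real.pi / 2 : ℝ) ∈ U := by
  obtain ⟨h1, h2⟩ := hz
  have := Real.pi_pos
  constructor
  · simp only [add_re, ofReal_re]; linarith
  · simp only [add_re, ofReal_re]; linarith

/-- The points of the line `Re = π / 4`. -/
noncomputable def pt (t : ℝ) : ℂ := (Real.pi / 4 : ℝ) + (t : ℂ) * I

theorem pt_re (t : ℝ) : (pt t).re = Real.pi / 4 := by simp [pt]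

theorem pt_im (t : ℝ) : (pt t).im = t := by simp [pt]

theorem pt_mem_V (t : ℝ) : pt t ∈ V := by
  have := Real.pi_pos
  constructor
  · rw [pt_re]; linarith
  · rw [pt_re]; linarith

theorem pt_frequently {P : ℂ → Prop} (h : ∀ t : ℝ, |t| ≤ 1 → P (pt t)) : ∃ᶠ z in 𝓝[≠] (pt 0), P z := by
  have ht : Tendsto (fun n : ℕ => pt (1 / ((n : ℝ) + 1))) atTop (𝓝[≠] (pt 0)) := by
    rw [tendsto_nhdsWithin_iff]
    constructor
    · have h1 : Tendsto (fun n : ℕ => (1 / ((n : ℝ) + 1))) atTop (𝓝 0) :=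
        tendsto_one_div_add_atTop_nhds_zero_nat
      have h2 : Continuous pt := by unfold pt; fun_prop
      exact (h2.tendsto 0).comp h1
    · refine Eventually.of_forall fun n => ?_
      intro hn
      have : (pt (1 / ((n : ℝ) + 1))).im = (pt 0).im := by rw [mem_singleton_iff.1 hn]
      rw [pt_im, pt_im] at this
      have h3 : (0 : ℝ) < 1 / ((n : ℝ) + 1) := by positivity
      linarith
  refine ht.frequently (Frequently.of_forall fun n => h _ ?_)
  rw [abs_of_nonneg (by positivity)]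
  rw [div_le_one (by positivity)]
  have : (0 : ℝ) ≤ n := Nat.cast_nonneg n
  linarith

theorem sym_pt (t : ℝ) : (Real.pi : ℂ) - (starRingEnd ℂ) (pt t) = pt t + (Real.pi / 2 : ℝ) := by
  apply Complex.ext
  · rw [sub_re, conj_re, add_re, pt_re, ofReal_re, ofReal_re]; ring
  · rw [sub_im, conj_im, add_im, pt_im, ofReal_im, ofReal_im]; ring

/-- A bounded analytic function in the strip with `f (z + π / 2) = ν * f z`, `‖ν‖ = 1`, and a nonzero value in
`π / 4 ≤ Re z < 3 π / 4` has `ν = 1`. -/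
theorem liouville {f : ℂ → ℂ} {C : ℝ} {ν : ℂ} (hf : DifferentiableOn ℂ f U) (hb : ∀ z ∈ U, ‖f z‖ ≤ C)
    (hν : ‖ν‖ = 1) (hper : ∀ z ∈ V, f (z + (Real.pi / 2 : ℝ)) = ν * f z) {z₁ : ℂ} (h1 : Real.pi / 4 ≤ z₁.re)
    (h2 : z₁.re < 3 * Real.pi / 4) (hne : f z₁ ≠ 0) : ν = 1 := by
  have hpi := Real.pi_pos
  have hν0 : ν ≠ 0 := by rintro rfl; simp at hν
  set p : ℝ := Real.pi / 2 with hp
  have hp0 : 0 < p := by positivity
  set N : ℂ → ℤ := fun z => ⌊(z.re - Real.pi / 4) / p⌋ with hN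
  set g : ℂ → ℂ := fun z => ν ^ N z * f (z - (N z : ℂ) * (p : ℂ)) with hg
  -- basic bounds
  have hre : ∀ (z : ℂ) (n : ℤ), (z - (n : ℂ) * (p : ℂ)).re = z.re - n * p := by
    intro z n; simp
  have hN1 : ∀ z : ℂ, Real.pi / 4 ≤ z.re - N z * p ∧ z.re - N z * p < 3 * Real.pi / 4 := by
    intro z
    have e1 := Int.floor_le ((z.re - Real.pi / 4) / p)
    have e2 := Int.lt_floor_add_one ((z.re - Real.pi / 4) / p)
    rw [le_div_iff₀ hp0] at e1
    rw [div_lt_iff₀ hp0] at e2
    constructor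
    · simp only [hN]; linarith
    · simp only [hN]; rw [hp] at e2 ⊢; linarith
  have hmem : ∀ z : ℂ, z - (N z : ℂ) * (p : ℂ) ∈ U := by
    intro z
    obtain ⟨e1, e2⟩ := hN1 z
    constructor
    · rw [hre]; linarith
    · rw [hre]; linarith
  -- local form
  have hloc : ∀ z₀ : ℂ, g =ᶠ[𝓝 z₀] fun z => ν ^ N z₀ * f (z - (N z₀ : ℂ) * (p : ℂ)) := by
    intro z₀
    obtain ⟨e1, e2⟩ := hN1 z₀
    have ho : IsOpen {z : ℂ | 3 * Real.pi / 16 < z.re - N z₀ * p ∧ z.re - N z₀ * p < 3 * Real.pi / 4} :=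
      (isOpen_lt continuous_const (continuous_re.sub continuous_const)).inter
        (isOpen_lt (continuous_re.sub continuous_const) continuous_const)
    filter_upwards [ho.mem_nhds ⟨by linarith, e2⟩] with z hz
    obtain ⟨a1, a2⟩ := hz
    obtain ⟨b1, b2⟩ := hN1 z
    -- N z is N z₀ or N z₀ - 1
    have c1 : N z < N z₀ + 1 := by
      by_contra hcon
      push Not at hcon
      have : ((N z₀ : ℝ) + 1) * p ≤ N z * p := by
        apply mul_le_mul_of_nonneg_right _ hp0.le
        exact_mod_cast hcon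
      rw [hp] at *
      nlinarith
    have c2 : N z₀ - 2 < N z := by
      by_contra hcon
      push Not at hcon
      have : (N z : ℝ) * p ≤ ((N z₀ : ℝ) - 2) * p := by
        apply mul_le_mul_of_nonneg_right _ hp0.le
        exact_mod_cast hcon
      rw [hp] at *
      nlinarith
    have c3 : N z = N z₀ ∨ N z = N z₀ - 1 := by omega
    rcases c3 with h | h
    · simp only [hg, h]
    · simp only [hg]
      rw [h]
      have hw : z - (N z₀ : ℂ) * (p : ℂ) ∈ V := by
        constructor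
        · rw [hre]; linarith
        · rw [hre]
          rw [h] at b2
          push_cast at b2
          rw [hp] at b2 ⊢
          linarith
      have e := hper _ hw
      have e3 : z - ((N z₀ - 1 : ℤ) : ℂ) * (p : ℂ) = z - (N z₀ : ℂ) * (p : ℂ) + (p : ℂ) := by
        push_cast; ring
      rw [e3, e, ← mul_assoc]
      congr 1
      rw [zpow_sub_one₀ hν0, mul_assoc, inv_mul_cancel₀ hν0, mul_one]
  have hd : Differentiable ℂ g := by
    intro z₀
    rw [(hloc z₀).differentiableAt_iff]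
    have : DifferentiableAt ℂ f (z₀ - (N z₀ : ℂ) * (p : ℂ)) := hf.differentiableAt (isOpen_U.mem_nhds (hmem z₀))
    have h3 : DifferentiableAt ℂ (fun z : ℂ => f (z - (N z₀ : ℂ) * (p : ℂ))) z₀ :=
      DifferentiableAt.comp (f := fun z : ℂ => z - (N z₀ : ℂ) * (p : ℂ)) z₀ this (by fun_prop)
    exact h3.const_mul _
  have hbd : Bornology.IsBounded (range g) := by
    rw [isBounded_iff_forall_norm_le]
    refine ⟨C, ?_⟩
    rintro _ ⟨z, rfl⟩
    simp only [hg]
    rw [norm_mul, norm_zpow, hν, one_zpow, one_mul]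
    exact hb _ (hmem z)
  have hconst := hd.apply_eq_apply_of_bounded hbd
  -- quasi-periodicity
  have hN2 : N (z₁ + (p : ℂ)) = N z₁ + 1 := by
    simp only [hN, add_re, ofReal_re]
    have : (z₁.re + p - Real.pi / 4) / p = (z₁.re - Real.pi / 4) / p + 1 := by field_simp; ring
    rw [this, Int.floor_add_one]
  have hN0 : N z₁ = 0 := by
    simp only [hN]
    rw [Int.floor_eq_iff]
    constructor
    · simp; exact div_nonneg (by linarith) hp0.le
    · simp; rw [div_lt_one hp0, hp]; linarith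
  have e1 : g z₁ = f z₁ := by simp [hg, hN0]
  have e2 : g (z₁ + (p : ℂ)) = ν * f z₁ := by
    simp only [hg, hN2, hN0]
    norm_num
  have e3 := hconst z₁ (z₁ + (p : ℂ))
  rw [e1, e2] at e3
  have : (ν - 1) * f z₁ = 0 := by rw [sub_mul, one_mul, ← e3, sub_self]
  rcases mul_eq_zero.1 this with h | h
  · exact sub_eq_zero.1 h
  · exact absurd h hne

/-- **Closing lemma.** -/
theorem closing {G : ℂ → ℂ} {C : ℝ} {A B : ℂ} (hG : DifferentiableOn ℂ G U)
    (hb : ∀ z ∈ U, ‖G z‖ ≤ C * Real.exp z.im)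
    (hsym : ∀ z ∈ U, G ((Real.pi : ℂ) - (starRingEnd ℂ) z) = (starRingEnd ℂ) (G z))
    (hne : G (Real.pi / 2 : ℝ) ≠ 0)
    (hrel : ∀ t : ℝ, |t| ≤ 1 → G (pt t) * A + G (pt t + (Real.pi / 2 : ℝ)) * B = 0) : A = I * B := by
  have hpi := Real.pi_pos
  have hmid : ((Real.pi / 2 : ℝ) : ℂ) ∈ U := by
    constructor
    · rw [ofReal_re]; linarith
    · rw [ofReal_re]; linarith
  have hGa : AnalyticOnNhd ℂ G U := hG.analyticOnNhd isOpen_U
  -- G does not vanish on the whole segment
  have hseg : ∃ t : ℝ, |t| ≤ 1 ∧ G (pt t) ≠ 0 := by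
    by_contra hcon
    push Not at hcon
    have hz := hGa.eqOn_zero_of_preconnected_of_frequently_eq_zero convex_U.isPreconnected (V_subset_U (pt_mem_V 0))
      (pt_frequently hcon)
    exact hne (hz hmid)
  -- the relation on V
  have hshift : DifferentiableOn ℂ (fun z => G (z + (Real.pi / 2 : ℝ))) V := by
    refine DifferentiableOn.comp (f := fun z : ℂ => z + ((Real.pi / 2 : ℝ) : ℂ)) hG (by fun_prop) ?_
    intro z hz
    exact shift_mem hz
  have hrelV : ∀ z ∈ V, G z * A + G (z + (Real.pi / 2 : ℝ)) * B = 0 := by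
    have hd : DifferentiableOn ℂ (fun z => G z * A + G (z + (Real.pi / 2 : ℝ)) * B) V :=
      ((hG.mono V_subset_U).mul_const A).add (hshift.mul_const B)
    have ha := hd.analyticOnNhd isOpen_V
    exact ha.eqOn_zero_of_preconnected_of_frequently_eq_zero convex_V.isPreconnected (pt_mem_V 0)
      (pt_frequently hrel)
  obtain ⟨t₀, ht₀, hGt⟩ := hseg
  by_cases hB : B = 0
  · have h := hrel t₀ ht₀
    rw [hB, mul_zero, add_zero] at h
    rcases mul_eq_zero.1 h with h | h
    · exact absurd h hGt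
    · rw [h, hB, mul_zero]
  set μ : ℂ := -A / B with hμ
  have hμV : ∀ z ∈ V, G (z + (Real.pi / 2 : ℝ)) = μ * G z := by
    intro z hz
    have h := hrelV z hz
    rw [hμ]
    field_simp
    linear_combination h
  have hμ1 : ‖μ‖ = 1 := by
    have h1 := hμV _ (pt_mem_V t₀)
    rw [← sym_pt, hsym _ (V_subset_U (pt_mem_V t₀))] at h1
    have h2 : ‖G (pt t₀)‖ = ‖μ‖ * ‖G (pt t₀)‖ := by
      rw [← norm_mul, ← h1, RCLike.norm_conj]
    have h3 : ‖G (pt t₀)‖ ≠ 0 := norm_ne_zero_iff.2 hGt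
    have h4 : (‖μ‖ - 1) * ‖G (pt t₀)‖ = 0 := by linarith
    rcases mul_eq_zero.1 h4 with h | h
    · linarith
    · exact absurd h h3
  -- f = G * exp (I z)
  have hf : DifferentiableOn ℂ (fun z => G z * Complex.exp (I * z)) U := by
    refine hG.mul ?_
    have : Differentiable ℂ (fun z : ℂ => Complex.exp (I * z)) := by fun_prop
    exact this.differentiableOn
  have hfb : ∀ z ∈ U, ‖G z * Complex.exp (I * z)‖ ≤ C := by
    intro z hz
    rw [norm_mul, Complex.norm_exp]
    have : (I * z).re = - z.im := by simp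
    rw [this]
    calc ‖G z‖ * Real.exp (- z.im) ≤ (C * Real.exp z.im) * Real.exp (- z.im) :=
          mul_le_mul_of_nonneg_right (hb z hz) (Real.exp_pos _).le
      _ = C := by rw [mul_assoc, ← Real.exp_add]; simp
  have hper : ∀ z ∈ V, (fun z => G z * Complex.exp (I * z)) (z + (Real.pi / 2 : ℝ)) =
      (I * μ) * (fun z => G z * Complex.exp (I * z)) z := by
    intro z hz
    show G (z + (Real.pi / 2 : ℝ)) * Complex.exp (I * (z + (Real.pi / 2 : ℝ))) = (I * μ) * (G z * Complex.exp (I * z))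
    rw [hμV z hz, mul_add, Complex.exp_add]
    have : Complex.exp (I * ((Real.pi / 2 : ℝ) : ℂ)) = I := by
      rw [mul_comm]; push_cast; exact Complex.exp_pi_div_two_mul_I
    rw [this]; ring
  have hν : ‖I * μ‖ = 1 := by rw [norm_mul, Complex.norm_I, one_mul, hμ1]
  have h1 := liouville hf hfb hν hper (z₁ := ((Real.pi / 2 : ℝ) : ℂ)) (by rw [ofReal_re]; linarith)
    (by rw [ofReal_re]; linarith) (mul_ne_zero hne (Complex.exp_ne_zero _))
  -- conclude
  have h2 : μ = -I := by
    have : I * (I * μ) = I * 1 := by rw [h1]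
    rw [← mul_assoc, I_mul_I] at this
    linear_combination -this
  rw [hμ] at h2
  field_simp at h2
  linear_combination -h2

/-- The part `|Im z| < Y` of the strip. -/
def UY (Y : ℝ) : Set ℂ := {z | z ∈ U ∧ |z.im| < Y}

theorem isOpen_UY (Y : ℝ) : IsOpen (UY Y) :=
  isOpen_U.inter (isOpen_lt (continuous_abs.comp continuous_im) continuous_const)

/-- The hypotheses of the quantitative closing lemma. -/
structure Hyp (C c δ Y : ℝ) (G : ℂ → ℂ) (A B : ℂ) : Prop where
  diff : DifferentiableOn ℂ G (UY Y)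
  bound : ∀ z ∈ UY Y, ‖G z‖ ≤ C * Real.exp z.im
  sym : ∀ z ∈ UY Y, G ((Real.pi : ℂ) - (starRingEnd ℂ) z) = (starRingEnd ℂ) (G z)
  lower : c ≤ ‖G (Real.pi / 2 : ℝ)‖
  hA : ‖A‖ ≤ 1
  hB : ‖B‖ ≤ 1
  rel : ∀ t : ℝ, |t| ≤ 1 → ‖G (pt t) * A + G (pt t + (Real.pi / 2 : ℝ)) * B‖ ≤ δ

theorem exists_lim_of_bdd (φ : Ultrafilter ℕ) {F : ℕ → ℂ} {M : ℝ} (h : ∀ᶠ n in (φ : Filter ℕ), ‖F n‖ ≤ M) :
    ∃ a : ℂ, Tendsto F φ (𝓝 a) := by
  have hK : IsCompact (Metric.closedBall (0 : ℂ) M) := isCompact_closedBall _ _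
  have h2 : (φ.map F : Filter ℂ) ≤ 𝓟 (Metric.closedBall (0 : ℂ) M) := by
    rw [le_principal_iff]
    change ∀ᶠ n in (φ : Filter ℕ), F n ∈ Metric.closedBall (0 : ℂ) M
    filter_upwards [h] with n hn
    rw [mem_closedBall_zero_iff]; exact hn
  obtain ⟨a, _, ha2⟩ := hK.ultrafilter_le_nhds _ h2
  exact ⟨a, ha2⟩

/-- **Quantitative closing lemma.** -/
theorem closing_quant (C c ε : ℝ) (hc : 0 < c) (hε : 0 < ε) : ∃ δ > 0, ∃ Y : ℝ, ∀ (G : ℂ → ℂ) (A B : ℂ),
    Hyp C c δ Y G A B → ‖A - I * B‖ ≤ ε := by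
  by_contra hcon
  push Not at hcon
  have hch : ∀ n : ℕ, ∃ (G : ℂ → ℂ) (A B : ℂ), Hyp C c (1 / ((n : ℝ) + 1)) ((n : ℝ) + 1) G A B ∧ ε < ‖A - I * B‖ :=
    fun n => hcon _ (by positivity) _
  choose G A B hyp hbig using hch
  set φ : Ultrafilter ℕ := hyperfilter ℕ with hφ
  have hφle : (φ : Filter ℕ) ≤ atTop := Nat.hyperfilter_le_atTop
  have hpi := Real.pi_pos
  -- eventually z belongs to the domain
  have hmem : ∀ z ∈ U, ∀ᶠ n : ℕ in (φ : Filter ℕ), z ∈ UY ((n : ℝ) + 1) := by
    intro z hz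
    apply hφle
    obtain ⟨k, hk⟩ := exists_nat_gt |z.im|
    filter_upwards [eventually_ge_atTop k] with n hn
    refine ⟨hz, ?_⟩
    have : (k : ℝ) ≤ n := by exact_mod_cast hn
    linarith
  have hex : ∀ z : ℂ, ∃ a : ℂ, z ∈ U → Tendsto (fun n => G n z) φ (𝓝 a) := by
    intro z
    by_cases hz : z ∈ U
    · obtain ⟨a, ha⟩ := exists_lim_of_bdd φ (F := fun n => G n z) (M := C * Real.exp z.im) (by
        filter_upwards [hmem z hz] with n hn
        exact (hyp n).bound z hn)
      exact ⟨a, fun _ => ha⟩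
    · exact ⟨0, fun h => absurd h hz⟩
  choose g hg using hex
  obtain ⟨a, ha⟩ := exists_lim_of_bdd φ (F := A) (M := 1) (Eventually.of_forall fun n => (hyp n).hA)
  obtain ⟨b, hb⟩ := exists_lim_of_bdd φ (F := B) (M := 1) (Eventually.of_forall fun n => (hyp n).hB)
  -- differentiability of the limit
  have hdiff : DifferentiableOn ℂ g U := by
    intro z hz
    obtain ⟨k, hk⟩ := exists_nat_gt |z.im|
    set F : ℕ → ℂ → ℂ := fun n => if k ≤ n then G n else fun _ => 0 with hF
    have hsub : ∀ n : ℕ, k ≤ n → UY (k : ℝ) ⊆ UY ((n : ℝ) + 1) := by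
      intro n hn w hw
      refine ⟨hw.1, hw.2.trans ?_⟩
      have : (k : ℝ) ≤ n := by exact_mod_cast hn
      linarith
    have hFd : ∀ n, DifferentiableOn ℂ (F n) (UY k) := by
      intro n
      by_cases hn : k ≤ n
      · simp only [hF, if_pos hn]; exact (hyp n).diff.mono (hsub n hn)
      · simp only [hF, if_neg hn]; exact differentiableOn_const _
    have hFb : ∀ n, ∀ w ∈ UY (k : ℝ), ‖F n w‖ ≤ |C| * Real.exp k := by
      intro n w hw
      by_cases hn : k ≤ n
      · simp only [hF, if_pos hn]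
        refine ((hyp n).bound w (hsub n hn hw)).trans ?_
        have e1 : Real.exp w.im ≤ Real.exp k := Real.exp_le_exp.2 ((le_abs_self _).trans hw.2.le)
        calc C * Real.exp w.im ≤ |C| * Real.exp w.im := mul_le_mul_of_nonneg_right (le_abs_self C) (Real.exp_pos _).le
          _ ≤ |C| * Real.exp k := mul_le_mul_of_nonneg_left e1 (abs_nonneg C)
      · simp only [hF, if_neg hn, norm_zero]; positivity
    obtain ⟨gk, h1, h2, _⟩ := Pool.Agent.H83.Lo.montel φ (isOpen_UY k) hFd hFb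
    have heq : ∀ w ∈ UY (k : ℝ), gk w = g w := by
      intro w hw
      have t1 := h1.tendsto_at hw
      have t2 := hg w hw.1
      have t3 : Tendsto (fun n => F n w) φ (𝓝 (g w)) := by
        refine t2.congr' ?_
        have : ∀ᶠ n in (φ : Filter ℕ), k ≤ n := hφle (eventually_ge_atTop k)
        filter_upwards [this] with n hn
        simp only [hF, if_pos hn]
      exact tendsto_nhds_unique t1 t3
    have hzk : z ∈ UY (k : ℝ) := ⟨hz, hk⟩
    have h3 : DifferentiableAt ℂ gk z := h2.differentiableAt ((isOpen_UY k).mem_nhds hzk)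
    have h4 : g =ᶠ[𝓝 z] gk := by
      filter_upwards [(isOpen_UY k).mem_nhds hzk] with w hw
      exact (heq w hw).symm
    exact (h3.congr_of_eventuallyEq h4).differentiableWithinAt
  have hmid : ((Real.pi / 2 : ℝ) : ℂ) ∈ U := by
    constructor
    · rw [ofReal_re]; linarith
    · rw [ofReal_re]; linarith
  have hbound : ∀ z ∈ U, ‖g z‖ ≤ C * Real.exp z.im := by
    intro z hz
    refine le_of_tendsto (hg z hz).norm ?_
    filter_upwards [hmem z hz] with n hn
    exact (hyp n).bound z hn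
  have hsymU : ∀ z ∈ U, (Real.pi : ℂ) - (starRingEnd ℂ) z ∈ U := by
    rintro z ⟨h1, h2⟩
    constructor
    · rw [sub_re, conj_re, ofReal_re]; linarith
    · rw [sub_re, conj_re, ofReal_re]; linarith
  have hsym : ∀ z ∈ U, g ((Real.pi : ℂ) - (starRingEnd ℂ) z) = (starRingEnd ℂ) (g z) := by
    intro z hz
    have t1 := hg _ (hsymU z hz)
    have t2 : Tendsto (fun n => (starRingEnd ℂ) (G n z)) φ (𝓝 ((starRingEnd ℂ) (g z))) :=
      (Complex.continuous_conj.tendsto _).comp (hg z hz)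
    refine tendsto_nhds_unique t1 (t2.congr' ?_)
    filter_upwards [hmem z hz] with n hn
    exact ((hyp n).sym z hn).symm
  have hne : g (Real.pi / 2 : ℝ) ≠ 0 := by
    have : c ≤ ‖g (Real.pi / 2 : ℝ)‖ :=
      ge_of_tendsto (hg _ hmid).norm (Eventually.of_forall fun n => (hyp n).lower)
    intro h0
    rw [h0, norm_zero] at this
    linarith
  have hrel : ∀ t : ℝ, |t| ≤ 1 → g (pt t) * a + g (pt t + (Real.pi / 2 : ℝ)) * b = 0 := by
    intro t ht
    have t1 := ((hg _ (V_subset_U (pt_mem_V t))).mul ha).add ((hg _ (shift_mem (pt_mem_V t))).mul hb)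
    have t2 : Tendsto (fun n : ℕ => 1 / ((n : ℝ) + 1)) φ (𝓝 0) :=
      tendsto_one_div_add_atTop_nhds_zero_nat.mono_left hφle
    have t3 := squeeze_zero_norm (fun n => (hyp n).rel t ht) t2
    exact tendsto_nhds_unique t1 t3
  have hfin := closing hdiff hbound hsym hne hrel
  have t4 : Tendsto (fun n => ‖A n - I * B n‖) φ (𝓝 ‖a - I * b‖) := (ha.sub (hb.const_mul I)).norm
  have t5 : ε ≤ ‖a - I * b‖ := ge_of_tendsto t4 (Eventually.of_forall fun n => (hbig n).le)
  rw [hfin, sub_self, norm_zero] at t5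
  linarith

end Pool.Agent.H25.Q1.Close
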