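import Mathlib
import Pool.Agent.H25.Q1.Close

/-!
# Contact series and the hypotheses of the closing lemma

`aw z` is the weight of a tile of rapidity `z`, `sw z = aw z * (1 - aw z)` is the weight of a kept cap (the
probability parameter of a cut tie) at a flat wall. In the closed strip `0 ≤ Re z ≤ π` one has
`‖sw z‖ ≤ 1 - 9 / 32 * exp (- 2 * |Im z| / 3)`.
-/

namespace Pool.Agent.H25.Q1.Close

open Complex Set Filter Topology

/-- Tile weight of rapidity `z`. -/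
noncomputable def aw (z : ℂ) : ℂ := Complex.sin (((Real.pi : ℂ) - z) / 3) / Complex.sin ((z + (Real.pi : ℂ)) / 3)

/-- Weight of a kept cap next to a flat wall. -/
noncomputable def sw (z : ℂ) : ℂ := aw z * (1 - aw z)

theorem normSq_one_sub_cos (x y : ℝ) : normSq (1 - Complex.cos (x + y * I)) = (Real.cosh y - Real.cos x) ^ 2 := by
  rw [Complex.cos_add_mul_I, ← ofReal_cos, ← ofReal_sin, ← ofReal_cosh, ← ofReal_sinh, normSq_apply]
  simp only [sub_re, one_re, mul_re, ofReal_re, ofReal_im, I_re, I_im, sub_im, one_im, mul_im]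
  have h1 := Real.sin_sq_add_cos_sq x
  have h2 := Real.cosh_sq y
  have h3 : Real.sin x ^ 2 = 1 - Real.cos x ^ 2 := by linarith
  have h4 : Real.sinh y ^ 2 = Real.cosh y ^ 2 - 1 := by linarith
  ring_nf
  rw [h3, h4]; ring

theorem normSq_half_add_cos (x y : ℝ) : normSq (1 / 2 + Complex.cos (x + y * I)) =
    Real.cosh y ^ 2 + Real.cos x * Real.cosh y + Real.cos x ^ 2 - 3 / 4 := by
  rw [Complex.cos_add_mul_I, ← ofReal_cos, ← ofReal_sin, ← ofReal_cosh, ← ofReal_sinh, normSq_apply]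
  have e : ((1 : ℂ) / 2) = ((1 / 2 : ℝ) : ℂ) := by push_cast; rfl
  rw [e]
  simp only [add_re, sub_re, mul_re, ofReal_re, ofReal_im, I_re, I_im, add_im, sub_im, mul_im]
  have h1 := Real.sin_sq_add_cos_sq x
  have h2 := Real.cosh_sq y
  have h3 : Real.sin x ^ 2 = 1 - Real.cos x ^ 2 := by linarith
  have h4 : Real.sinh y ^ 2 = Real.cosh y ^ 2 - 1 := by linarith
  ring_nf
  rw [h3, h4]; ring

theorem cos_le_of_mem {x : ℝ} (h1 : 2 * Real.pi / 3 ≤ x) (h2 : x ≤ 4 * Real.pi / 3) : Real.cos x ≤ -(1 / 2) := by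
  have hpi := Real.pi_pos
  have e : Real.cos x = - Real.cos (x - Real.pi) := by rw [Real.cos_sub_pi]; ring
  have h3 : |x - Real.pi| ≤ Real.pi / 3 := by rw [abs_le]; constructor <;> linarith
  have h4 : Real.cos (Real.pi / 3) ≤ Real.cos |x - Real.pi| :=
    Real.cos_le_cos_of_nonneg_of_le_pi (abs_nonneg _) (by linarith) h3
  rw [Real.cos_abs, Real.cos_pi_div_three] at h4
  rw [e]; linarith

/-- The doubled angle. -/
theorem dbl (z : ℂ) : 2 * ((z + (Real.pi : ℂ)) / 3) =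
    ((2 * (z.re + Real.pi) / 3 : ℝ) : ℂ) + ((2 * z.im / 3 : ℝ) : ℂ) * I := by
  apply Complex.ext
  · simp; ring
  · simp; ring

theorem sin_sq_eq (z : ℂ) : Complex.sin ((z + (Real.pi : ℂ)) / 3) ^ 2 =
    (1 - Complex.cos (((2 * (z.re + Real.pi) / 3 : ℝ) : ℂ) + ((2 * z.im / 3 : ℝ) : ℂ) * I)) / 2 := by
  rw [← dbl, Complex.cos_two_mul]
  have := Complex.sin_sq_add_cos_sq ((z + (Real.pi : ℂ)) / 3)
  linear_combination this

theorem pos_XC {x : ℝ} (y : ℝ) (hx : Real.cos x ≤ -(1 / 2)) : 0 < Real.cosh y - Real.cos x := by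
  have := Real.one_le_cosh y
  linarith

theorem sin_ne {z : ℂ} (h1 : 0 ≤ z.re) (h2 : z.re ≤ Real.pi) : Complex.sin ((z + (Real.pi : ℂ)) / 3) ≠ 0 := by
  intro h
  have e := sin_sq_eq z
  rw [h] at e
  have hc := cos_le_of_mem (x := 2 * (z.re + Real.pi) / 3) (by linarith) (by linarith)
  have hn := normSq_one_sub_cos (2 * (z.re + Real.pi) / 3) (2 * z.im / 3)
  have h0 : 1 - Complex.cos (((2 * (z.re + Real.pi) / 3 : ℝ) : ℂ) + ((2 * z.im / 3 : ℝ) : ℂ) * I) = 0 := by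
    have : (1 - Complex.cos (((2 * (z.re + Real.pi) / 3 : ℝ) : ℂ) + ((2 * z.im / 3 : ℝ) : ℂ) * I)) / 2 = 0 := by
      rw [← e]; simp
    linear_combination 2 * this
  rw [h0, map_zero] at hn
  have := pos_XC (2 * z.im / 3) hc
  nlinarith

theorem one_sub_aw {z : ℂ} (h1 : 0 ≤ z.re) (h2 : z.re ≤ Real.pi) :
    1 - aw z = Complex.sin (z / 3) / Complex.sin ((z + (Real.pi : ℂ)) / 3) := by
  have hs := sin_ne h1 h2
  unfold aw
  rw [eq_div_iff hs, sub_mul, one_mul, div_mul_cancel₀ _ hs]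
  have e1 : (z + (Real.pi : ℂ)) / 3 = (Real.pi : ℂ) / 3 + z / 3 := by ring
  have e2 : ((Real.pi : ℂ) - z) / 3 = (Real.pi : ℂ) / 3 - z / 3 := by ring
  rw [e1, e2, Complex.sin_add, Complex.sin_sub]
  have hc : Complex.cos ((Real.pi : ℂ) / 3) = 1 / 2 := by
    have := congrArg (fun r : ℝ => (r : ℂ)) Real.cos_pi_div_three
    push_cast at this
    exact this
  rw [hc]; ring

theorem sin_pi_third_sq : Complex.sin ((Real.pi : ℂ) / 3) ^ 2 = 3 / 4 := by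
  have hc : Complex.cos ((Real.pi : ℂ) / 3) = 1 / 2 := by
    have := congrArg (fun r : ℝ => (r : ℂ)) Real.cos_pi_div_three
    push_cast at this
    exact this
  have := Complex.sin_sq_add_cos_sq ((Real.pi : ℂ) / 3)
  rw [hc] at this
  linear_combination this

theorem sw_eq {z : ℂ} (h1 : 0 ≤ z.re) (h2 : z.re ≤ Real.pi) :
    sw z = 1 - 3 / (4 * Complex.sin ((z + (Real.pi : ℂ)) / 3) ^ 2) := by
  have hs := sin_ne h1 h2
  unfold sw
  rw [one_sub_aw h1 h2]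
  unfold aw
  have e1 : (z + (Real.pi : ℂ)) / 3 = (Real.pi : ℂ) / 3 + z / 3 := by ring
  have e2 : ((Real.pi : ℂ) - z) / 3 = (Real.pi : ℂ) / 3 - z / 3 := by ring
  have key : Complex.sin (((Real.pi : ℂ) - z) / 3) * Complex.sin (z / 3) =
      Complex.sin ((z + (Real.pi : ℂ)) / 3) ^ 2 - 3 / 4 := by
    rw [e1, e2, Complex.sin_add, Complex.sin_sub]
    have hc : Complex.cos ((Real.pi : ℂ) / 3) = 1 / 2 := by
      have := congrArg (fun r : ℝ => (r : ℂ)) Real.cos_pi_div_three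
      push_cast at this
      exact this
    have hs3 := sin_pi_third_sq
    have hz := Complex.sin_sq_add_cos_sq (z / 3)
    rw [hc]
    linear_combination (-(Complex.cos (z / 3)) ^ 2) * hs3 + (-(3 : ℂ) / 4) * hz
  field_simp
  linear_combination 4 * key

theorem sw_sub {z : ℂ} (h1 : 0 ≤ z.re) (h2 : z.re ≤ Real.pi) : sw z =
    -((1 / 2 + Complex.cos (((2 * (z.re + Real.pi) / 3 : ℝ) : ℂ) + ((2 * z.im / 3 : ℝ) : ℂ) * I)) /
      (1 - Complex.cos (((2 * (z.re + Real.pi) / 3 : ℝ) : ℂ) + ((2 * z.im / 3 : ℝ) : ℂ) * I))) := by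
  have hs := sin_ne h1 h2
  rw [sw_eq h1 h2]
  have e := sin_sq_eq z
  set w := Complex.cos (((2 * (z.re + Real.pi) / 3 : ℝ) : ℂ) + ((2 * z.im / 3 : ℝ) : ℂ) * I) with hw
  have hne : (1 - w) ≠ 0 := by
    intro h0
    rw [h0] at e
    apply hs
    have : Complex.sin ((z + (Real.pi : ℂ)) / 3) ^ 2 = 0 := by rw [e]; simp
    exact pow_eq_zero_iff (two_ne_zero) |>.1 this
  rw [e]
  field_simp
  ring

/-- **The basic bound for the kept-cap weight in the closed strip.** -/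
theorem norm_sw_le {z : ℂ} (h1 : 0 ≤ z.re) (h2 : z.re ≤ Real.pi) :
    ‖sw z‖ ≤ 1 - 9 / 32 * Real.exp (-(2 * |z.im| / 3)) := by
  have hpi := Real.pi_pos
  set X := Real.cosh (2 * z.im / 3) with hX
  set c := Real.cos (2 * (z.re + Real.pi) / 3) with hc
  have hc1 : c ≤ -(1 / 2) := cos_le_of_mem (by linarith) (by linarith)
  have hc2 : -1 ≤ c := Real.neg_one_le_cos _
  have hX1 : 1 ≤ X := Real.one_le_cosh _
  have hsq : ‖sw z‖ ^ 2 = (X ^ 2 + c * X + c ^ 2 - 3 / 4) / (X - c) ^ 2 := by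
    rw [sw_sub h1 h2, norm_neg, norm_div, div_pow, ← normSq_eq_norm_sq, ← normSq_eq_norm_sq,
      normSq_half_add_cos, normSq_one_sub_cos]
  have hpos : 0 < X - c := by linarith
  have hE : X + 1 ≤ 2 * Real.exp (2 * |z.im| / 3) := by
    have e1 : X ≤ Real.exp (2 * |z.im| / 3) := by
      have : X = Real.cosh (2 * |z.im| / 3) := by
        rw [hX, ← Real.cosh_abs (2 * z.im / 3)]
        congr 1
        rw [abs_div, abs_mul]; norm_num
      rw [this, Real.cosh_eq]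
      have : Real.exp (-(2 * |z.im| / 3)) ≤ Real.exp (2 * |z.im| / 3) :=
        Real.exp_le_exp.2 (by have := abs_nonneg z.im; linarith)
      linarith
    have e2 : 1 ≤ Real.exp (2 * |z.im| / 3) := Real.one_le_exp (by positivity)
    linarith
  have hmain : 9 / 16 * Real.exp (-(2 * |z.im| / 3)) ≤ 1 - ‖sw z‖ ^ 2 := by
    have e0 : 1 - ‖sw z‖ ^ 2 = (3 / 4 - 3 * c * X) / (X - c) ^ 2 := by
      rw [hsq]; field_simp; ring
    have e1 : 9 / 8 / (X + 1) ≤ (3 / 4 - 3 * c * X) / (X - c) ^ 2 := by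
      rw [div_le_div_iff₀ (by linarith) (by positivity)]
      have a1 : (X - c) ^ 2 ≤ (X + 1) ^ 2 := pow_le_pow_left₀ hpos.le (by linarith) 2
      have a2 : 9 / 8 * (X + 1) ≤ 3 / 4 - 3 * c * X := by nlinarith
      nlinarith
    rw [e0]
    refine le_trans ?_ e1
    rw [Real.exp_neg, le_div_iff₀ (by linarith)]
    have hE0 := Real.exp_pos (2 * |z.im| / 3)
    rw [mul_assoc, mul_comm (Real.exp (2 * |z.im| / 3))⁻¹ (X + 1), ← div_eq_mul_inv]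
    have : (X + 1) / Real.exp (2 * |z.im| / 3) ≤ 2 := by
      rw [div_le_iff₀ hE0]; exact hE
    linarith
  have hn0 : 0 ≤ ‖sw z‖ := norm_nonneg _
  have hn1 : ‖sw z‖ ≤ 1 := by
    have := Real.exp_pos (-(2 * |z.im| / 3))
    nlinarith
  nlinarith

theorem norm_sw_lt_one {z : ℂ} (h1 : 0 ≤ z.re) (h2 : z.re ≤ Real.pi) : ‖sw z‖ < 1 := by
  have := norm_sw_le h1 h2
  have := Real.exp_pos (-(2 * |z.im| / 3))
  linarith

theorem sw_sym {z : ℂ} (h1 : 0 ≤ z.re) (h2 : z.re ≤ Real.pi) :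
    sw ((Real.pi : ℂ) - (starRingEnd ℂ) z) = (starRingEnd ℂ) (sw z) := by
  have h1' : 0 ≤ ((Real.pi : ℂ) - (starRingEnd ℂ) z).re := by rw [sub_re, conj_re, ofReal_re]; linarith
  have h2' : ((Real.pi : ℂ) - (starRingEnd ℂ) z).re ≤ Real.pi := by rw [sub_re, conj_re, ofReal_re]; linarith
  rw [sw_eq h1' h2', sw_eq h1 h2]
  simp only [map_sub, map_one, map_div₀, map_mul, map_pow]
  have e1 : (starRingEnd ℂ) (Complex.sin ((z + (Real.pi : ℂ)) / 3)) =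
      Complex.sin (((starRingEnd ℂ) z + (Real.pi : ℂ)) / 3) := by
    rw [← Complex.sin_conj]
    congr 1
    rw [map_div₀, map_add, conj_ofReal, Complex.conj_ofNat]
  have e2 : Complex.sin (((Real.pi : ℂ) - (starRingEnd ℂ) z + (Real.pi : ℂ)) / 3) =
      Complex.sin (((starRingEnd ℂ) z + (Real.pi : ℂ)) / 3) := by
    have : ((Real.pi : ℂ) - (starRingEnd ℂ) z + (Real.pi : ℂ)) / 3 =
      (Real.pi : ℂ) - ((starRingEnd ℂ) z + (Real.pi : ℂ)) / 3 := by ring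
    rw [this, Complex.sin_pi_sub]
  rw [e1, e2]
  have h3 : (starRingEnd ℂ) (3 : ℂ) = 3 := Complex.conj_ofNat 3
  have h4 : (starRingEnd ℂ) (4 : ℂ) = 4 := Complex.conj_ofNat 4
  rw [h3, h4]

theorem differentiableAt_sw {z : ℂ} (h1 : 0 ≤ z.re) (h2 : z.re ≤ Real.pi) : DifferentiableAt ℂ sw z := by
  have hs := sin_ne h1 h2
  have ha : DifferentiableAt ℂ aw z := by
    unfold aw
    refine DifferentiableAt.div ?_ ?_ hs
    · fun_prop
    · fun_prop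
  unfold sw
  exact ha.mul ((differentiableAt_const _).sub ha)

/-- The contact series `∑ ν_m s^m` at the weight `s` of rapidity `z + i y₀`, divided by `exp y₀`. -/
noncomputable def gs (ν : ℕ → ℝ) (y₀ : ℝ) (z : ℂ) : ℂ :=
  (Real.exp (-y₀) : ℂ) * ∑' m, (ν m : ℂ) * sw (z + (y₀ : ℂ) * I) ^ m

theorem re_shift (z : ℂ) (y₀ : ℝ) : (z + (y₀ : ℂ) * I).re = z.re := by simp

theorem im_shift (z : ℂ) (y₀ : ℝ) : (z + (y₀ : ℂ) * I).im = z.im + y₀ := by simp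

theorem U_re {z : ℂ} (hz : z ∈ U) : 0 ≤ z.re ∧ z.re ≤ Real.pi := by
  have := Real.pi_pos
  exact ⟨by linarith [hz.1], by linarith [hz.2]⟩

theorem isOpen_strip : IsOpen {z : ℂ | 0 < z.re ∧ z.re < Real.pi} :=
  (isOpen_lt continuous_const continuous_re).inter (isOpen_lt continuous_re continuous_const)

/-- Differentiability of the contact series. -/
theorem differentiableAt_gs {ν : ℕ → ℝ} (hν : ∀ m, 0 ≤ ν m)
    (hsum : ∀ r : ℝ, 0 ≤ r → r < 1 → Summable fun m => ν m * r ^ m) (y₀ : ℝ) {z : ℂ} (hz : z ∈ U) :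
    DifferentiableAt ℂ (gs ν y₀) z := by
  obtain ⟨h1, h2⟩ := U_re hz
  have hz1 : 0 ≤ (z + (y₀ : ℂ) * I).re := by rw [re_shift]; exact h1
  have hz2 : (z + (y₀ : ℂ) * I).re ≤ Real.pi := by rw [re_shift]; exact h2
  obtain ⟨r, hr1, hr2⟩ := exists_between (norm_sw_lt_one hz1 hz2)
  have hr0 : 0 ≤ r := (norm_nonneg _).trans hr1.le
  have hq : DifferentiableOn ℂ (fun w : ℂ => ∑' m, (ν m : ℂ) * w ^ m) (Metric.ball 0 r) := by
    refine differentiableOn_tsum_of_summable_norm (hsum r hr0 hr2) (fun m => ?_) Metric.isOpen_ball ?_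
    · exact ((differentiable_id.pow m).const_mul _).differentiableOn
    · intro m w hw
      rw [norm_mul, norm_pow, Complex.norm_real, Real.norm_of_nonneg (hν m)]
      rw [mem_ball_zero_iff] at hw
      exact mul_le_mul_of_nonneg_left (pow_le_pow_left₀ (norm_nonneg _) hw.le m) (hν m)
  have hqa : DifferentiableAt ℂ (fun w : ℂ => ∑' m, (ν m : ℂ) * w ^ m) (sw (z + (y₀ : ℂ) * I)) :=
    hq.differentiableAt (Metric.isOpen_ball.mem_nhds (by rw [mem_ball_zero_iff]; exact hr1))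
  have hs : DifferentiableAt ℂ (fun z : ℂ => sw (z + (y₀ : ℂ) * I)) z :=
    DifferentiableAt.comp (f := fun z : ℂ => z + (y₀ : ℂ) * I) z (differentiableAt_sw hz1 hz2) (by fun_prop)
  have := DifferentiableAt.comp (f := fun z : ℂ => sw (z + (y₀ : ℂ) * I)) z hqa hs
  exact this.const_mul _

theorem norm_tsum_le {ν : ℕ → ℝ} (hν : ∀ m, 0 ≤ ν m)
    (hsum : ∀ r : ℝ, 0 ≤ r → r < 1 → Summable fun m => ν m * r ^ m) {w : ℂ} (hw : ‖w‖ < 1) :
    ‖∑' m, (ν m : ℂ) * w ^ m‖ ≤ ∑' m, ν m * ‖w‖ ^ m := by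
  have hs := hsum ‖w‖ (norm_nonneg _) hw
  have hn : ∀ m, ‖(ν m : ℂ) * w ^ m‖ = ν m * ‖w‖ ^ m := fun m => by
    rw [norm_mul, norm_pow, Complex.norm_real, Real.norm_of_nonneg (hν m)]
  refine (norm_tsum_le_tsum_norm ?_).trans (le_of_eq ?_)
  · simpa only [hn] using hs
  · exact tsum_congr hn

/-- Upper bound. -/
theorem norm_gs_le {ν : ℕ → ℝ} (hν : ∀ m, 0 ≤ ν m)
    (hsum : ∀ r : ℝ, 0 ≤ r → r < 1 → Summable fun m => ν m * r ^ m) {C₀ : ℝ}
    (hup : ∀ r : ℝ, 0 ≤ r → r < 1 → (∑' m, ν m * r ^ m) * (1 - r) ^ (3 / 2 : ℝ) ≤ C₀) {y₀ : ℝ} {z : ℂ}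
    (hz : z ∈ U) (hy : 0 ≤ z.im + y₀) : ‖gs ν y₀ z‖ ≤ C₀ * (32 / 9) ^ (3 / 2 : ℝ) * Real.exp z.im := by
  obtain ⟨h1, h2⟩ := U_re hz
  have hz1 : 0 ≤ (z + (y₀ : ℂ) * I).re := by rw [re_shift]; exact h1
  have hz2 : (z + (y₀ : ℂ) * I).re ≤ Real.pi := by rw [re_shift]; exact h2
  set s := sw (z + (y₀ : ℂ) * I) with hs
  have hs1 : ‖s‖ < 1 := norm_sw_lt_one hz1 hz2
  have hle := norm_sw_le hz1 hz2
  rw [im_shift, abs_of_nonneg hy] at hle
  have hA := norm_tsum_le hν hsum hs1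
  have hT := hup ‖s‖ (norm_nonneg _) hs1
  set T := ∑' m, ν m * ‖s‖ ^ m with hTdef
  have hT0 : 0 ≤ T := tsum_nonneg fun m => mul_nonneg (hν m) (pow_nonneg (norm_nonneg _) m)
  set E := Real.exp (-(2 * (z.im + y₀) / 3)) with hE
  have hE0 : 0 < E := Real.exp_pos _
  have hb : 9 / 32 * E ≤ 1 - ‖s‖ := by linarith
  have hpow : (9 / 32 * E) ^ (3 / 2 : ℝ) ≤ (1 - ‖s‖) ^ (3 / 2 : ℝ) :=
    Real.rpow_le_rpow (by positivity) hb (by norm_num)
  have hEpow : E ^ (3 / 2 : ℝ) = Real.exp (-(z.im + y₀)) := by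
    rw [hE, ← Real.exp_mul]; congr 1; ring
  have h9 : (9 / 32 : ℝ) ^ (3 / 2 : ℝ) * (32 / 9) ^ (3 / 2 : ℝ) = 1 := by
    rw [← Real.mul_rpow (by norm_num) (by norm_num)]; norm_num
  have hT2 : T * (9 / 32 * E) ^ (3 / 2 : ℝ) ≤ C₀ := (mul_le_mul_of_nonneg_left hpow hT0).trans hT
  rw [Real.mul_rpow (by norm_num) hE0.le, hEpow] at hT2
  have hT3 : T ≤ C₀ * (32 / 9) ^ (3 / 2 : ℝ) * Real.exp (z.im + y₀) := by
    have h32 : (0 : ℝ) < (32 / 9) ^ (3 / 2 : ℝ) := by positivity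
    have e1 := mul_le_mul_of_nonneg_right hT2 (mul_nonneg h32.le (Real.exp_pos (z.im + y₀)).le)
    have e2 : T * ((9 / 32) ^ (3 / 2 : ℝ) * Real.exp (-(z.im + y₀))) *
        ((32 / 9) ^ (3 / 2 : ℝ) * Real.exp (z.im + y₀)) = T := by
      have e3 : Real.exp (-(z.im + y₀)) * Real.exp (z.im + y₀) = 1 := by rw [← Real.exp_add]; simp
      calc _ = T * ((9 / 32 : ℝ) ^ (3 / 2 : ℝ) * (32 / 9) ^ (3 / 2 : ℝ)) *
            (Real.exp (-(z.im + y₀)) * Real.exp (z.im + y₀)) := by ring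
        _ = T := by rw [h9, e3]; ring
    rw [e2] at e1
    linarith
  unfold gs
  rw [norm_mul, Complex.norm_real, Real.norm_of_nonneg (Real.exp_pos _).le]
  calc Real.exp (-y₀) * ‖∑' m, (ν m : ℂ) * s ^ m‖ ≤ Real.exp (-y₀) * T :=
        mul_le_mul_of_nonneg_left hA (Real.exp_pos _).le
    _ ≤ Real.exp (-y₀) * (C₀ * (32 / 9) ^ (3 / 2 : ℝ) * Real.exp (z.im + y₀)) :=
        mul_le_mul_of_nonneg_left hT3 (Real.exp_pos _).le
    _ = C₀ * (32 / 9) ^ (3 / 2 : ℝ) * Real.exp z.im := by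
        have e3 : Real.exp (-y₀) * Real.exp (z.im + y₀) = Real.exp z.im := by rw [← Real.exp_add]; congr 1; ring
        calc _ = C₀ * (32 / 9) ^ (3 / 2 : ℝ) * (Real.exp (-y₀) * Real.exp (z.im + y₀)) := by ring
          _ = _ := by rw [e3]

/-- The real weight on the centre line. -/
noncomputable def s₀ (y₀ : ℝ) : ℝ := 1 - 3 / (4 * Real.cosh (y₀ / 3) ^ 2)

theorem s₀_nonneg (y₀ : ℝ) : 0 ≤ s₀ y₀ := by
  have h := Real.one_le_cosh (y₀ / 3)
  unfold s₀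
  have : 3 / (4 * Real.cosh (y₀ / 3) ^ 2) ≤ 1 := by
    rw [div_le_one (by positivity)]; nlinarith
  linarith

theorem s₀_lt_one (y₀ : ℝ) : s₀ y₀ < 1 := by
  have h := Real.one_le_cosh (y₀ / 3)
  unfold s₀
  have : 0 < 3 / (4 * Real.cosh (y₀ / 3) ^ 2) := by positivity
  linarith

theorem sw_centre (y₀ : ℝ) : sw (((Real.pi / 2 : ℝ) : ℂ) + (y₀ : ℂ) * I) = (s₀ y₀ : ℂ) := by
  have hpi := Real.pi_pos
  rw [sw_eq (by rw [re_shift, ofReal_re]; linarith) (by rw [re_shift, ofReal_re]; linarith)]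
  have e : Complex.sin (((((Real.pi / 2 : ℝ) : ℂ) + (y₀ : ℂ) * I) + (Real.pi : ℂ)) / 3) =
      (Real.cosh (y₀ / 3) : ℂ) := by
    have e1 : ((((Real.pi / 2 : ℝ) : ℂ) + (y₀ : ℂ) * I) + (Real.pi : ℂ)) / 3 =
        ((y₀ / 3 : ℝ) : ℂ) * I + (Real.pi : ℂ) / 2 := by push_cast; ring
    rw [e1, Complex.sin_add_pi_div_two, Complex.cos_mul_I, ← ofReal_cosh]
  rw [e]
  unfold s₀
  push_cast
  rfl

/-- Lower bound at the centre. -/
theorem norm_gs_ge {ν : ℕ → ℝ} (hν : ∀ m, 0 ≤ ν m) {c₀ y₀ : ℝ}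
    (hlow : c₀ ≤ (∑' m, ν m * s₀ y₀ ^ m) * (1 - s₀ y₀) ^ (3 / 2 : ℝ)) :
    c₀ / 6 ≤ ‖gs ν y₀ (Real.pi / 2 : ℝ)‖ := by
  set T := ∑' m, ν m * s₀ y₀ ^ m with hT
  have hT0 : 0 ≤ T := tsum_nonneg fun m => mul_nonneg (hν m) (pow_nonneg (s₀_nonneg y₀) m)
  have e0 : ∑' m, (ν m : ℂ) * sw (((Real.pi / 2 : ℝ) : ℂ) + (y₀ : ℂ) * I) ^ m = (T : ℂ) := by
    rw [sw_centre, hT, ofReal_tsum]
    exact tsum_congr fun m => by push_cast; rfl
  unfold gs
  rw [e0, norm_mul, Complex.norm_real, Complex.norm_real, Real.norm_of_nonneg (Real.exp_pos _).le,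
    Real.norm_of_nonneg hT0]
  -- (1 - s₀)^(3/2) ≤ 3 √3 e^{-y₀}
  have hcosh : Real.exp (y₀ / 3) / 2 ≤ Real.cosh (y₀ / 3) := by
    rw [Real.cosh_eq]
    have := Real.exp_pos (-(y₀ / 3))
    linarith
  have hb : 1 - s₀ y₀ ≤ 3 * Real.exp (-(2 * y₀ / 3)) := by
    unfold s₀
    have hc1 := Real.one_le_cosh (y₀ / 3)
    have hE := Real.exp_pos (y₀ / 3)
    have e1 : Real.exp (-(2 * y₀ / 3)) = (Real.exp (y₀ / 3) ^ 2)⁻¹ := by
      rw [← Real.exp_nat_mul, ← Real.exp_neg]; congr 1; push_cast; ring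
    have e2 : 1 - (1 - 3 / (4 * Real.cosh (y₀ / 3) ^ 2)) = 3 / (4 * Real.cosh (y₀ / 3) ^ 2) := by ring
    rw [e1, e2, ← div_eq_mul_inv]
    refine div_le_div_of_nonneg_left (by norm_num) (by positivity) ?_
    have : (Real.exp (y₀ / 3) / 2) ^ 2 ≤ Real.cosh (y₀ / 3) ^ 2 := pow_le_pow_left₀ (by positivity) hcosh 2
    nlinarith
  have hb0 : 0 ≤ 1 - s₀ y₀ := by linarith [s₀_lt_one y₀]
  have hp : (1 - s₀ y₀) ^ (3 / 2 : ℝ) ≤ 6 * Real.exp (-y₀) := by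
    refine (Real.rpow_le_rpow hb0 hb (by norm_num)).trans ?_
    rw [Real.mul_rpow (by norm_num) (Real.exp_pos _).le, ← Real.exp_mul]
    have e1 : -(2 * y₀ / 3) * (3 / 2) = -y₀ := by ring
    rw [e1]
    refine mul_le_mul_of_nonneg_right ?_ (Real.exp_pos _).le
    have h36 : (36 : ℝ) ^ (1 / 2 : ℝ) = 6 := by
      rw [← Real.sqrt_eq_rpow]
      rw [show (36 : ℝ) = 6 ^ 2 by norm_num]
      exact Real.sqrt_sq (by norm_num)
    have h27 : (3 : ℝ) ^ (3 / 2 : ℝ) = (27 : ℝ) ^ (1 / 2 : ℝ) := by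
      rw [show (27 : ℝ) = 3 ^ (3 : ℝ) by norm_num, ← Real.rpow_mul (by norm_num)]
      norm_num
    rw [h27, ← h36]
    exact Real.rpow_le_rpow (by norm_num) (by norm_num) (by norm_num)
  have h3 : c₀ ≤ T * (6 * Real.exp (-y₀)) := hlow.trans (mul_le_mul_of_nonneg_left hp hT0)
  linarith

theorem gs_sym (ν : ℕ → ℝ) (y₀ : ℝ) {z : ℂ} (hz : z ∈ U) :
    gs ν y₀ ((Real.pi : ℂ) - (starRingEnd ℂ) z) = (starRingEnd ℂ) (gs ν y₀ z) := by
  obtain ⟨h1, h2⟩ := U_re hz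
  have hz1 : 0 ≤ (z + (y₀ : ℂ) * I).re := by rw [re_shift]; exact h1
  have hz2 : (z + (y₀ : ℂ) * I).re ≤ Real.pi := by rw [re_shift]; exact h2
  unfold gs
  rw [map_mul, conj_ofReal]
  congr 1
  have e : (Real.pi : ℂ) - (starRingEnd ℂ) z + (y₀ : ℂ) * I =
      (Real.pi : ℂ) - (starRingEnd ℂ) (z + (y₀ : ℂ) * I) := by
    rw [map_add, map_mul, conj_ofReal, conj_I]; ring
  rw [e, sw_sym hz1 hz2]
  rw [conj_tsum]
  exact tsum_congr fun m => by rw [map_mul, map_pow, conj_ofReal]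

/-- **From the contact series to the hypotheses of the closing lemma.** -/
theorem hyp_of_series {ν : ℕ → ℝ} (hν : ∀ m, 0 ≤ ν m)
    (hsum : ∀ r : ℝ, 0 ≤ r → r < 1 → Summable fun m => ν m * r ^ m) {C₀ c₀ δ Y y₀ : ℝ} {A B : ℂ}
    (hup : ∀ r : ℝ, 0 ≤ r → r < 1 → (∑' m, ν m * r ^ m) * (1 - r) ^ (3 / 2 : ℝ) ≤ C₀)
    (hlow : c₀ ≤ (∑' m, ν m * s₀ y₀ ^ m) * (1 - s₀ y₀) ^ (3 / 2 : ℝ)) (hY : Y ≤ y₀)
    (hA : ‖A‖ ≤ 1) (hB : ‖B‖ ≤ 1)
    (hrel : ∀ t : ℝ, |t| ≤ 1 → ‖gs ν y₀ (pt t) * A + gs ν y₀ (pt t + (Real.pi / 2 : ℝ)) * B‖ ≤ δ) :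
    Hyp (C₀ * (32 / 9) ^ (3 / 2 : ℝ)) (c₀ / 6) δ Y (gs ν y₀) A B where
  diff := fun z hz => (differentiableAt_gs hν hsum y₀ hz.1).differentiableWithinAt
  bound := fun z hz => norm_gs_le hν hsum hup hz.1 (by
    have := (abs_lt.1 hz.2).1
    linarith)
  sym := fun z hz => gs_sym ν y₀ hz.1
  lower := norm_gs_ge hν hlow
  hA := hA
  hB := hB
  rel := hrel

end Pool.Agent.H25.Q1.Close
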