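import Mathlib

/-!
# Abstract first-order expansion for complex Bernoulli weights (M6e)

`cw φ s A` is the complex Bernoulli weight of the set `A ⊆ s` of cut clusters. `cE φ s F` is the corresponding
complex expectation. Main results: the exact inclusion-exclusion form, the first-order expansion with error bounds
(complex and real weights), and marginalisation.
-/

namespace Pool.Agent.H25.Q1.Add

open Finset

variable {ι : Type*} [DecidableEq ι] {E : Type*} [NormedAddCommGroup E] [NormedSpace ℂ E]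

/-- Complex Bernoulli weight of the subset `A` of `s`. -/
def cw (φ : ι → ℂ) (s A : Finset ι) : ℂ := (∏ i ∈ A, φ i) * ∏ i ∈ s \ A, (1 - φ i)

/-- Complex Bernoulli expectation. -/
def cE (φ : ι → ℂ) (s : Finset ι) (F : Finset ι → E) : E := ∑ A ∈ s.powerset, cw φ s A • F A

/-- Inclusion-exclusion difference at the set `C`. -/
def dl (F : Finset ι → E) (C : Finset ι) : E := ∑ A ∈ C.powerset, ((-1 : ℂ) ^ (C \ A).card) • F A

theorem cw_insert_of_mem {φ : ι → ℂ} {s A : Finset ι} {a : ι} (ha : a ∉ s) (hA : A ⊆ s) :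
    cw φ (insert a s) (insert a A) = φ a * cw φ s A := by
  have haA : a ∉ A := fun h => ha (hA h)
  unfold cw
  rw [prod_insert haA]
  have : insert a s \ insert a A = s \ A := by
    ext x; simp only [mem_sdiff, mem_insert, not_or]
    constructor
    · rintro ⟨h1 | h1, h2, h3⟩
      · exact absurd h1 h2
      · exact ⟨h1, h3⟩
    · rintro ⟨h1, h2⟩
      exact ⟨Or.inr h1, fun h => ha (h ▸ h1), h2⟩
  rw [this]; ring

theorem cw_insert_of_not {φ : ι → ℂ} {s A : Finset ι} {a : ι} (ha : a ∉ s) (hA : A ⊆ s) :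
    cw φ (insert a s) A = (1 - φ a) * cw φ s A := by
  have haA : a ∉ A := fun h => ha (hA h)
  unfold cw
  have : insert a s \ A = insert a (s \ A) := by
    ext x; simp only [mem_sdiff, mem_insert]
    constructor
    · rintro ⟨h1 | h1, h2⟩
      · exact Or.inl h1
      · exact Or.inr ⟨h1, h2⟩
    · rintro (h1 | ⟨h1, h2⟩)
      · exact ⟨Or.inl h1, h1 ▸ haA⟩
      · exact ⟨Or.inr h1, h2⟩
  rw [this, prod_insert (by simp [ha])]; ring

theorem cE_insert {φ : ι → ℂ} {s : Finset ι} {a : ι} (ha : a ∉ s) (F : Finset ι → E) :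
    cE φ (insert a s) F = (1 - φ a) • cE φ s F + φ a • cE φ s (fun A => F (insert a A)) := by
  unfold cE
  rw [sum_powerset_insert ha, smul_sum, smul_sum]
  congr 1
  · refine sum_congr rfl fun A hA => ?_
    rw [cw_insert_of_not ha (mem_powerset.1 hA), mul_smul]
  · refine sum_congr rfl fun A hA => ?_
    rw [cw_insert_of_mem ha (mem_powerset.1 hA), mul_smul]

theorem sum_cw (φ : ι → ℂ) (s : Finset ι) : ∑ A ∈ s.powerset, cw φ s A = 1 := by
  have := (prod_add φ (fun i => 1 - φ i) s).symm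
  simpa [cw] using this

/-- Marginalisation: clusters which do not change `F` drop out (complex weights). -/
theorem cE_inter (φ : ι → ℂ) (s M : Finset ι) (hM : M ⊆ s) (F : Finset ι → E)
    (hF : ∀ A ⊆ s, F A = F (A ∩ M)) : cE φ s F = cE φ M F := by
  classical
  induction s using Finset.induction_on generalizing M F with
  | empty => rw [subset_empty.1 hM]
  | insert a s ha ih =>
    by_cases haM : a ∈ M
    · have hM' : M.erase a ⊆ s := by
        intro x hx
        have := hM (mem_of_mem_erase hx)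
        rcases mem_insert.1 this with h | h
        · exact absurd h (ne_of_mem_erase hx)
        · exact h
      rw [cE_insert ha, ← insert_erase haM, cE_insert (notMem_erase a M)]
      rw [ih (M.erase a) hM' F, ih (M.erase a) hM' (fun A => F (insert a A))]
      · intro A hA
        have haA : a ∉ A := fun h => ha (hA h)
        show F (insert a A) = F (insert a (A ∩ M.erase a))
        rw [hF (insert a A) (insert_subset_insert a hA)]
        rw [hF (insert a (A ∩ M.erase a)) (insert_subset_insert a (inter_subset_left.trans hA))]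
        congr 1
        ext x; simp only [mem_inter, mem_insert, mem_erase]; tauto
      · intro A hA
        have haA : a ∉ A := fun h => ha (hA h)
        rw [hF A (hA.trans (subset_insert _ _))]
        congr 1
        ext x; simp only [mem_inter, mem_erase]
        constructor
        · rintro ⟨h1, h2⟩; exact ⟨h1, fun h => haA (h ▸ h1), h2⟩
        · rintro ⟨h1, _, h2⟩; exact ⟨h1, h2⟩
    · have hM' : M ⊆ s := by
        intro x hx
        rcases mem_insert.1 (hM hx) with h | h
        · exact absurd (h ▸ hx) haM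
        · exact h
      rw [cE_insert ha, ih M hM' F, ih M hM' (fun A => F (insert a A))]
      · have : cE φ M (fun A => F (insert a A)) = cE φ M F := by
          unfold cE
          refine sum_congr rfl fun A hA => ?_
          have hA' := mem_powerset.1 hA
          show cw φ M A • F (insert a A) = cw φ M A • F A
          rw [hF (insert a A) (insert_subset_insert a (hA'.trans hM'))]
          rw [insert_inter_of_notMem haM, inter_eq_left.2 hA']
        rw [this, ← add_smul]; simp
      · intro A hA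
        show F (insert a A) = F (insert a (A ∩ M))
        rw [hF (insert a A) (insert_subset_insert a hA)]
        rw [hF (insert a (A ∩ M)) (insert_subset_insert a (inter_subset_left.trans hA))]
        congr 1
        rw [insert_inter_of_notMem haM, insert_inter_of_notMem haM, inter_assoc, inter_self]
      · intro A hA
        exact hF A (hA.trans (subset_insert _ _))

theorem dl_empty (F : Finset ι → E) : dl F ∅ = F ∅ := by simp [dl]

theorem dl_singleton (F : Finset ι → E) (i : ι) : dl F {i} = F {i} - F ∅ := by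
  have h : ({i} : Finset ι).powerset = {∅, {i}} := by
    ext A; simp [subset_singleton_iff]
  rw [dl, h, sum_pair (singleton_ne_empty i).symm]
  simp [sub_eq_add_neg, add_comm]

theorem dl_insert {F : Finset ι → E} {C : Finset ι} {a : ι} (ha : a ∉ C) :
    dl F (insert a C) = dl (fun A => F (insert a A)) C - dl F C := by
  unfold dl
  rw [sum_powerset_insert ha, sub_eq_add_neg, add_comm, ← sum_neg_distrib]
  congr 1
  · refine sum_congr rfl fun A hA => ?_
    have hA' := mem_powerset.1 hA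
    have : insert a C \ insert a A = C \ A := by
      ext x; simp only [mem_sdiff, mem_insert, not_or]
      constructor
      · rintro ⟨h1 | h1, h2, h3⟩
        · exact absurd h1 h2
        · exact ⟨h1, h3⟩
      · rintro ⟨h1, h2⟩
        exact ⟨Or.inr h1, fun h => ha (h ▸ h1), h2⟩
    rw [this]
  · refine sum_congr rfl fun A hA => ?_
    have hA' := mem_powerset.1 hA
    have haA : a ∉ A := fun h => ha (hA' h)
    have : insert a C \ A = insert a (C \ A) := by
      ext x; simp only [mem_sdiff, mem_insert]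
      constructor
      · rintro ⟨h1 | h1, h2⟩
        · exact Or.inl h1
        · exact Or.inr ⟨h1, h2⟩
      · rintro (h1 | ⟨h1, h2⟩)
        · exact ⟨Or.inl h1, h1 ▸ haA⟩
        · exact ⟨Or.inr h1, h2⟩
    rw [this, card_insert_of_notMem (by simp [ha]), pow_succ, mul_neg_one, neg_smul]

/-- Exact inclusion-exclusion form of the complex expectation. -/
theorem cE_eq_sum_dl (φ : ι → ℂ) (s : Finset ι) (F : Finset ι → E) :
    cE φ s F = ∑ C ∈ s.powerset, (∏ i ∈ C, φ i) • dl F C := by
  induction s using Finset.induction_on generalizing F with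
  | empty => simp [cE, cw, dl]
  | insert a s ha ih =>
    rw [cE_insert ha, ih, ih, sum_powerset_insert ha, sub_smul, one_smul, smul_sum, smul_sum, sub_add_eq_add_sub,
      add_sub_assoc]
    congr 1
    rw [← sum_sub_distrib]
    refine sum_congr rfl fun C hC => ?_
    have haC : a ∉ C := fun h => ha (mem_powerset.1 hC h)
    rw [dl_insert haC, prod_insert haC, mul_smul, smul_sub, smul_sub]

theorem norm_dl_le {F : Finset ι → E} {M : ℝ} (C : Finset ι) (hF : ∀ A ⊆ C, ‖F A‖ ≤ M) :
    ‖dl F C‖ ≤ 2 ^ C.card * M := by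
  unfold dl
  refine (norm_sum_le _ _).trans ?_
  have : ∀ A ∈ C.powerset, ‖((-1 : ℂ) ^ (C \ A).card) • F A‖ ≤ M := fun A hA => by
    rw [norm_smul]; simp only [norm_pow, norm_neg, norm_one, one_pow, one_mul]
    exact hF A (mem_powerset.1 hA)
  refine (sum_le_sum this).trans ?_
  rw [sum_const, card_powerset, nsmul_eq_mul]
  push_cast
  exact le_rfl

/-- First-order expansion, complex weights. -/
theorem first_order {φ : ι → ℂ} {s : Finset ι} {F : Finset ι → E} {M : ℝ} (hF : ∀ A ⊆ s, ‖F A‖ ≤ M) :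
    ‖cE φ s F - F ∅ - ∑ i ∈ s, φ i • (F {i} - F ∅)‖ ≤
      M * ∑ A ∈ s.powerset with 2 ≤ A.card, ∏ i ∈ A, (2 * ‖φ i‖) := by
  have key : cE φ s F - F ∅ - ∑ i ∈ s, φ i • (F {i} - F ∅) =
      ∑ C ∈ s.powerset with 2 ≤ C.card, (∏ i ∈ C, φ i) • dl F C := by
    rw [cE_eq_sum_dl, ← sum_filter_add_sum_filter_not s.powerset (fun C => 2 ≤ C.card)]
    have h0 : ∑ C ∈ s.powerset with ¬ 2 ≤ C.card, (∏ i ∈ C, φ i) • dl F C =
        F ∅ + ∑ i ∈ s, φ i • (F {i} - F ∅) := by
      have hs : (s.powerset.filter fun C => ¬ 2 ≤ C.card) = insert ∅ (s.map ⟨singleton, singleton_injective⟩) := by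
        ext C
        simp only [mem_filter, mem_powerset, mem_insert, mem_map, Function.Embedding.coeFn_mk, not_le]
        constructor
        · rintro ⟨h1, h2⟩
          have : C.card = 0 ∨ C.card = 1 := by omega
          rcases this with h | h
          · exact Or.inl (card_eq_zero.1 h)
          · obtain ⟨x, rfl⟩ := card_eq_one.1 h
            exact Or.inr ⟨x, h1 (mem_singleton_self x), rfl⟩
        · rintro (rfl | ⟨x, hx, rfl⟩)
          · simp
          · simp [hx]
      rw [hs, sum_insert (by simp), sum_map]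
      simp [dl_empty, dl_singleton]
    rw [h0]; abel
  rw [key, mul_sum]
  refine (norm_sum_le _ _).trans (sum_le_sum fun C hC => ?_)
  have hCs : C ⊆ s := mem_powerset.1 (mem_filter.1 hC).1
  rw [norm_smul, prod_mul_distrib, prod_const, norm_prod]
  have := norm_dl_le C (fun A hA => hF A (hA.trans hCs))
  have hp : 0 ≤ ∏ i ∈ C, ‖φ i‖ := prod_nonneg fun i _ => norm_nonneg _
  calc (∏ i ∈ C, ‖φ i‖) * ‖dl F C‖ ≤ (∏ i ∈ C, ‖φ i‖) * (2 ^ C.card * M) :=
        mul_le_mul_of_nonneg_left this hp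
    _ = M * (2 ^ C.card * ∏ i ∈ C, ‖φ i‖) := by ring

/-- The total variation of the complex Bernoulli weights. -/
noncomputable def tv (φ : ι → ℂ) (s : Finset ι) : ℝ := ∏ k ∈ s, (‖φ k‖ + ‖1 - φ k‖)

theorem one_le_tv1 (z : ℂ) : 1 ≤ ‖z‖ + ‖1 - z‖ := by
  have := norm_add_le z (1 - z)
  simpa using this

theorem one_le_tv (φ : ι → ℂ) (s : Finset ι) : 1 ≤ tv φ s := by
  induction s using Finset.induction_on with
  | empty => simp [tv]
  | insert a s ha ih =>
    have e : tv φ (insert a s) = (‖φ a‖ + ‖1 - φ a‖) * tv φ s := by unfold tv; rw [prod_insert ha]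
    rw [e]
    have := one_le_tv1 (φ a)
    nlinarith

/-- Sum over ordered pairs of distinct indices. -/
def pr (x : ι → ℝ) (s : Finset ι) : ℝ := ∑ i ∈ s, ∑ j ∈ s.erase i, x i * x j

theorem pr_insert {x : ι → ℝ} {s : Finset ι} {a : ι} (ha : a ∉ s) :
    pr x (insert a s) = pr x s + 2 * (x a * ∑ i ∈ s, x i) := by
  unfold pr
  rw [sum_insert ha, erase_insert ha]
  have : ∀ i ∈ s, ∑ j ∈ (insert a s).erase i, x i * x j = x a * x i + ∑ j ∈ s.erase i, x i * x j := by
    intro i hi
    have hne : a ≠ i := fun h => ha (h ▸ hi)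
    rw [erase_insert_of_ne hne, sum_insert (by simp [ha]), mul_comm (x i) (x a)]
  rw [sum_congr rfl this, sum_add_distrib, mul_sum]
  ring

theorem norm_cE_le {φ : ι → ℂ} {s : Finset ι} {F : Finset ι → E} {M : ℝ} (hF : ∀ A ⊆ s, ‖F A‖ ≤ M) :
    ‖cE φ s F‖ ≤ M * tv φ s := by
  induction s using Finset.induction_on generalizing F with
  | empty => simpa [cE, cw, tv] using hF ∅ (subset_refl _)
  | insert a s ha ih =>
    rw [cE_insert ha, tv, prod_insert ha]
    have h1 := ih (F := F) fun A hA => hF A (hA.trans (subset_insert _ _))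
    have h2 := ih (F := fun A => F (insert a A)) fun A hA => hF _ (insert_subset_insert a hA)
    refine (norm_add_le _ _).trans ?_
    rw [norm_smul, norm_smul]
    have e1 := mul_le_mul_of_nonneg_left h1 (norm_nonneg (1 - φ a))
    have e2 := mul_le_mul_of_nonneg_left h2 (norm_nonneg (φ a))
    unfold tv at e1 e2
    nlinarith [e1, e2]

/-- First-order expansion with pair error; for real weights in `[0,1]` one has `tv = 1`. -/
theorem first_order_pairs {φ : ι → ℂ} {s : Finset ι} {F : Finset ι → E} {M : ℝ} (hF : ∀ A ⊆ s, ‖F A‖ ≤ M) :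
    ‖cE φ s F - F ∅ - ∑ i ∈ s, φ i • (F {i} - F ∅)‖ ≤ 2 * M * pr (fun i => ‖φ i‖) s * tv φ s := by
  induction s using Finset.induction_on generalizing F with
  | empty => simp [cE, cw, pr]
  | insert a s ha ih =>
    have h1 := ih (F := F) fun A hA => hF A (hA.trans (subset_insert _ _))
    have h2 := ih (F := fun A => F (insert a A)) fun A hA => hF _ (insert_subset_insert a hA)
    have hM : 0 ≤ M := (norm_nonneg _).trans (hF ∅ (empty_subset _))
    have hpair : ∀ i ∈ s, ‖φ i • (F (insert a {i}) - F {a} - (F {i} - F ∅))‖ ≤ ‖φ i‖ * (4 * M) := by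
      intro i hi
      rw [norm_smul]
      refine mul_le_mul_of_nonneg_left ?_ (norm_nonneg _)
      have e1 := hF (insert a {i}) (insert_subset_insert a (singleton_subset_iff.2 hi))
      have e2 := hF {a} (singleton_subset_iff.2 (mem_insert_self _ _))
      have e3 := hF {i} (singleton_subset_iff.2 (mem_insert_of_mem hi))
      have e4 := hF ∅ (empty_subset _)
      have t1 := norm_sub_le (F (insert a {i}) - F {a}) (F {i} - F ∅)
      have t2 := norm_sub_le (F (insert a {i})) (F {a})
      have t3 := norm_sub_le (F {i}) (F ∅)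
      linarith
    have key : cE φ (insert a s) F - F ∅ - ∑ i ∈ insert a s, φ i • (F {i} - F ∅) =
        (1 - φ a) • (cE φ s F - F ∅ - ∑ i ∈ s, φ i • (F {i} - F ∅)) +
        φ a • (cE φ s (fun A => F (insert a A)) - F {a} - ∑ i ∈ s, φ i • (F (insert a {i}) - F {a})) +
        φ a • ∑ i ∈ s, φ i • (F (insert a {i}) - F {a} - (F {i} - F ∅)) := by
      rw [cE_insert ha, sum_insert ha]
      have : ∑ i ∈ s, φ i • (F (insert a {i}) - F {a} - (F {i} - F ∅)) =
        ∑ i ∈ s, φ i • (F (insert a {i}) - F {a}) - ∑ i ∈ s, φ i • (F {i} - F ∅) := by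
        rw [← sum_sub_distrib]; exact sum_congr rfl fun i _ => by rw [smul_sub]
      rw [this]
      module
    have hS : ‖∑ i ∈ s, φ i • (F (insert a {i}) - F {a} - (F {i} - F ∅))‖ ≤ (∑ i ∈ s, ‖φ i‖) * (4 * M) := by
      rw [sum_mul]; exact (norm_sum_le _ _).trans (sum_le_sum hpair)
    rw [key]
    have hV := one_le_tv φ s
    have hp : 0 ≤ pr (fun i => ‖φ i‖) s := by
      unfold pr; exact sum_nonneg fun i _ => sum_nonneg fun j _ => mul_nonneg (norm_nonneg _) (norm_nonneg _)
    have hsum : 0 ≤ ∑ i ∈ s, ‖φ i‖ := sum_nonneg fun i _ => norm_nonneg _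
    have hins : tv φ (insert a s) = (‖φ a‖ + ‖1 - φ a‖) * tv φ s := by
      unfold tv; rw [prod_insert ha]
    rw [hins, pr_insert ha]
    have h2' : ‖cE φ s (fun A => F (insert a A)) - F {a} - ∑ i ∈ s, φ i • (F (insert a {i}) - F {a})‖ ≤
        2 * M * pr (fun i => ‖φ i‖) s * tv φ s := by
      simpa using h2
    refine (norm_add_le _ _).trans ?_
    refine (add_le_add_left (norm_add_le _ _) _).trans ?_
    rw [norm_smul, norm_smul, norm_smul]
    have e1 := mul_le_mul_of_nonneg_left h1 (norm_nonneg (1 - φ a))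
    have e2 := mul_le_mul_of_nonneg_left h2' (norm_nonneg (φ a))
    have e3 := mul_le_mul_of_nonneg_left hS (norm_nonneg (φ a))
    have h1a := one_le_tv1 (φ a)
    have hprod : 1 ≤ (‖φ a‖ + ‖1 - φ a‖) * tv φ s := by nlinarith
    have e4 : ‖φ a‖ * ((∑ i ∈ s, ‖φ i‖) * (4 * M)) ≤
        ‖φ a‖ * ((∑ i ∈ s, ‖φ i‖) * (4 * M)) * ((‖φ a‖ + ‖1 - φ a‖) * tv φ s) :=
      le_mul_of_one_le_right (by positivity) hprod
    nlinarith [e1, e2, e3, e4]

/-- Real weights in `[0,1]`. -/
theorem first_order_real {p : ι → ℝ} {s : Finset ι} (h0 : ∀ i ∈ s, 0 ≤ p i) (h1 : ∀ i ∈ s, p i ≤ 1)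
    {F : Finset ι → E} {M : ℝ} (hF : ∀ A ⊆ s, ‖F A‖ ≤ M) :
    ‖cE (fun i => (p i : ℂ)) s F - F ∅ - ∑ i ∈ s, (p i : ℂ) • (F {i} - F ∅)‖ ≤ 2 * M * pr p s := by
  have h := first_order_pairs (φ := fun i => (p i : ℂ)) hF
  have ht : tv (fun i => (p i : ℂ)) s = 1 := by
    unfold tv
    refine prod_eq_one fun i hi => ?_
    have e : (1 : ℂ) - (p i : ℂ) = ((1 - p i : ℝ) : ℂ) := by push_cast; ring
    rw [e, Complex.norm_real, Complex.norm_real, Real.norm_of_nonneg (h0 i hi),
      Real.norm_of_nonneg (by linarith [h1 i hi])]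
    ring
  have hpr : pr (fun i => ‖((p i : ℝ) : ℂ)‖) s = pr p s := by
    unfold pr
    refine sum_congr rfl fun i hi => sum_congr rfl fun j hj => ?_
    simp only [Complex.norm_real]
    rw [Real.norm_of_nonneg (h0 i hi), Real.norm_of_nonneg (h0 j (mem_of_mem_erase hj))]
  rw [ht, hpr, mul_one] at h
  exact h

/-- Real Bernoulli weight. -/
def rw (x : ι → ℝ) (s B : Finset ι) : ℝ := (∏ i ∈ B, x i) * ∏ i ∈ s \ B, (1 - x i)

theorem rw_nonneg {x : ι → ℝ} {s B : Finset ι} (hB : B ⊆ s) (h0 : ∀ i ∈ s, 0 ≤ x i) (h1 : ∀ i ∈ s, x i ≤ 1) :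
    0 ≤ rw x s B :=
  mul_nonneg (prod_nonneg fun i hi => h0 i (hB hi))
    (prod_nonneg fun i hi => by linarith [h1 i (mem_sdiff.1 hi).1])

theorem sum_rw (x : ι → ℝ) (s : Finset ι) : ∑ B ∈ s.powerset, rw x s B = 1 := by
  have := (prod_add x (fun i => 1 - x i) s).symm
  simpa [rw] using this

/-- The probability that the random set contains `A`. -/
theorem sum_rw_superset (x : ι → ℝ) {s A : Finset ι} (hA : A ⊆ s) :
    ∑ B ∈ s.powerset with A ⊆ B, rw x s B = ∏ i ∈ A, x i := by
  have h := prod_add x (fun i => if i ∈ A then 0 else 1 - x i) s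
  have hl : ∏ i ∈ s, (x i + if i ∈ A then 0 else 1 - x i) = ∏ i ∈ A, x i := by
    rw [← prod_sdiff hA]
    have e1 : ∏ i ∈ s \ A, (x i + if i ∈ A then 0 else 1 - x i) = 1 :=
      prod_eq_one fun i hi => by simp [(mem_sdiff.1 hi).2]
    have e2 : ∏ i ∈ A, (x i + if i ∈ A then 0 else 1 - x i) = ∏ i ∈ A, x i :=
      prod_congr rfl fun i hi => by simp [hi]
    rw [e1, e2, one_mul]
  rw [hl] at h
  rw [h, sum_filter]
  refine sum_congr rfl fun B hB => ?_
  by_cases hAB : A ⊆ B
  · rw [if_pos hAB]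
    unfold rw
    congr 1
    refine prod_congr rfl fun i hi => ?_
    rw [if_neg fun h => (mem_sdiff.1 hi).2 (hAB h)]
  · rw [if_neg hAB]
    obtain ⟨i, hiA, hiB⟩ := not_subset.1 hAB
    rw [prod_eq_zero (i := i) (mem_sdiff.2 ⟨hA hiA, hiB⟩) (by simp [hiA]), mul_zero]

theorem sum_pow_card_two (s : Finset ι) :
    ∑ A ∈ s.powerset with 2 ≤ A.card, (2 : ℝ) ^ A.card = 3 ^ s.card - 1 - 2 * s.card := by
  have h3 : ∑ A ∈ s.powerset, (2 : ℝ) ^ A.card = 3 ^ s.card := by
    have := prod_add (fun _ : ι => (2 : ℝ)) (fun _ => 1) s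
    simp only [prod_const, one_pow, mul_one] at this
    rw [← this]; norm_num
  have hs : (s.powerset.filter fun C => ¬ 2 ≤ C.card) = insert ∅ (s.map ⟨singleton, singleton_injective⟩) := by
    ext C
    simp only [mem_filter, mem_powerset, mem_insert, mem_map, Function.Embedding.coeFn_mk, not_le]
    constructor
    · rintro ⟨h1, h2⟩
      have : C.card = 0 ∨ C.card = 1 := by omega
      rcases this with h | h
      · exact Or.inl (card_eq_zero.1 h)
      · obtain ⟨x, rfl⟩ := card_eq_one.1 h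
        exact Or.inr ⟨x, h1 (mem_singleton_self x), rfl⟩
    · rintro (rfl | ⟨x, hx, rfl⟩)
      · simp
      · simp [hx]
  have h0 : ∑ A ∈ s.powerset with ¬ 2 ≤ A.card, (2 : ℝ) ^ A.card = 1 + 2 * s.card := by
    rw [hs, sum_insert (by simp), sum_map]
    simp [mul_comm]
  have := sum_filter_add_sum_filter_not s.powerset (fun C => 2 ≤ C.card) (fun A => (2 : ℝ) ^ A.card)
  rw [h3, h0] at this
  linarith

/-- The error term of `first_order` with `‖φ i‖ ≤ x i`, as an expectation at the real parameters `x i`: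
with `N` the number of cut clusters it is the mean of `3 ^ N - 1 - 2 N`. -/
theorem error_eq (x : ι → ℝ) (s : Finset ι) :
    ∑ A ∈ s.powerset with 2 ≤ A.card, ∏ i ∈ A, (2 * x i) =
      ∑ B ∈ s.powerset, rw x s B * (3 ^ B.card - 1 - 2 * B.card) := by
  have e1 : ∀ B ∈ s.powerset, rw x s B * (3 ^ B.card - 1 - 2 * B.card) =
      ∑ A ∈ s.powerset, if A ⊆ B ∧ 2 ≤ A.card then rw x s B * 2 ^ A.card else 0 := by
    intro B hB
    rw [← sum_pow_card_two, mul_sum, ← sum_filter]
    refine sum_congr ?_ fun _ _ => rfl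
    ext A
    simp only [mem_filter, mem_powerset]
    constructor
    · rintro ⟨h1, h2⟩; exact ⟨h1.trans (mem_powerset.1 hB), h1, h2⟩
    · rintro ⟨_, h1, h2⟩; exact ⟨h1, h2⟩
  rw [sum_congr rfl e1, sum_comm, sum_filter]
  refine sum_congr rfl fun A hA => ?_
  split_ifs with h
  · rw [prod_mul_distrib, prod_const, ← sum_rw_superset x (mem_powerset.1 hA), mul_sum, sum_filter]
    refine sum_congr rfl fun B _ => ?_
    by_cases hAB : A ⊆ B
    · simp [hAB, h, mul_comm]
    · simp [hAB]
  · symm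
    apply sum_eq_zero
    intro B _
    rw [if_neg fun hh => h hh.2]

/-- Geometric tails give the moment bound for `3 ^ N - 1 - 2 N`. -/
theorem moment3 {Ω : Type*} (S : Finset Ω) (p : Ω → ℝ) (hp : ∀ ω ∈ S, 0 ≤ p ω) (N : Ω → ℕ) {κ θ : ℝ}
    (hκ : 0 ≤ κ) (h0 : 0 ≤ θ) (h1 : θ ≤ 1 / 4) (hN : ∀ m, ∑ ω ∈ S with m + 2 ≤ N ω, p ω ≤ κ * θ ^ m) :
    ∑ ω ∈ S, p ω * (3 ^ N ω - 1 - 2 * N ω) ≤ 24 * κ := by
  classical
  set K := S.sup N with hK
  have hpt : ∀ n : ℕ, (3 : ℝ) ^ n - 1 - 2 * n ≤ ∑ m ∈ range n, if m + 2 ≤ n then 6 * 3 ^ m else 0 := by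
    intro n
    rcases Nat.lt_or_ge n 2 with h | h
    · interval_cases n <;> norm_num
    obtain ⟨k, rfl⟩ : ∃ k, n = k + 2 := ⟨n - 2, by omega⟩
    have e : ∑ m ∈ range (k + 1), (6 * 3 ^ m : ℝ) ≤
        ∑ m ∈ range (k + 2), if m + 2 ≤ k + 2 then 6 * 3 ^ m else 0 := by
      rw [sum_range_succ (fun m => if m + 2 ≤ k + 2 then (6 * 3 ^ m : ℝ) else 0)]
      rw [if_neg (by omega), add_zero]
      refine le_of_eq (sum_congr rfl fun m hm => ?_)
      rw [if_pos (by have := mem_range.1 hm; omega)]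
    refine le_trans ?_ e
    have g : ∀ k : ℕ, ∑ m ∈ range (k + 1), (6 * 3 ^ m : ℝ) = 9 * 3 ^ k - 3 := by
      intro k
      induction k with
      | zero => norm_num
      | succ k ih => rw [sum_range_succ, ih, pow_succ]; ring
    rw [g, pow_add]
    have : (0 : ℝ) ≤ k := Nat.cast_nonneg k
    push_cast
    linarith
  have hpt2 : ∀ ω ∈ S, p ω * (3 ^ N ω - 1 - 2 * N ω) ≤
      ∑ m ∈ range K, if m + 2 ≤ N ω then p ω * (6 * 3 ^ m) else 0 := by
    intro ω hω
    have hle : N ω ≤ K := le_sup hω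
    refine (mul_le_mul_of_nonneg_left (hpt (N ω)) (hp ω hω)).trans ?_
    rw [mul_sum]
    have : ∀ m ∈ range (N ω), p ω * (if m + 2 ≤ N ω then 6 * 3 ^ m else 0) =
        if m + 2 ≤ N ω then p ω * (6 * 3 ^ m) else 0 := fun m _ => by split_ifs <;> simp
    rw [sum_congr rfl this]
    refine sum_le_sum_of_subset_of_nonneg (range_mono hle) fun m _ _ => ?_
    split_ifs
    · exact mul_nonneg (hp ω hω) (by positivity)
    · exact le_rfl
  refine (sum_le_sum hpt2).trans ?_
  rw [sum_comm]
  have hm : ∀ m ∈ range K, (∑ ω ∈ S, if m + 2 ≤ N ω then p ω * (6 * 3 ^ m) else 0) ≤ 6 * κ * (3 * θ) ^ m := by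
    intro m _
    rw [← sum_filter, ← sum_mul]
    have := mul_le_mul_of_nonneg_right (hN m) (show (0 : ℝ) ≤ 6 * 3 ^ m by positivity)
    refine this.trans (le_of_eq ?_)
    rw [mul_pow]; ring
  refine (sum_le_sum hm).trans ?_
  rw [← mul_sum]
  have hg : ∑ m ∈ range K, (3 * θ) ^ m ≤ 4 := by
    have h3 : 3 * θ ≤ 3 / 4 := by linarith
    have h3' : (0 : ℝ) ≤ 3 * θ := by linarith
    have hb : (∑ m ∈ range K, (3 * θ) ^ m) * (1 - 3 * θ) = 1 - (3 * θ) ^ K := by
      have := geom_sum_mul_neg (3 * θ) K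
      linarith
    have hK : 0 ≤ (3 * θ) ^ K := pow_nonneg h3' K
    have hs0 : 0 ≤ ∑ m ∈ range K, (3 * θ) ^ m := sum_nonneg fun m _ => pow_nonneg h3' m
    nlinarith
  nlinarith

end Pool.Agent.H25.Q1.Add
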