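import Mathlib

set_option autoImplicit false
open Finset

/-! Abstract recursion for step (H4) of M6e: a soft bound for the total pivotal mass at every scale
and the natural bound give the natural exponent for the layered wall. -/

namespace Pool.Agent.H25.Q1

/-- `F a b` = sup of the probability that the strands cross from scale `a` to scale `b`. -/
theorem rec_bound {F : ℕ → ℕ → ℝ} {J : ℕ → ℝ} {C0 q : ℝ} {a0 : ℕ} (hC : 1 ≤ C0)
    (hq : 0 < q) (hq1 : q ≤ 1)
    (hF0 : ∀ a b, 0 ≤ F a b) (hF1 : ∀ a b, F a b ≤ 1) (hJ : ∀ t, 0 ≤ J t)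
    (hJs : ∀ a b, a0 ≤ a → ∑ t ∈ Icc a b, J t ≤ q ^ 2 / (4 * C0))
    (hrec : ∀ a b, a0 ≤ a → a ≤ b →
      F a b ≤ C0 * q ^ (b - a) + ∑ t ∈ Icc a b, J t * (F a (t - 1) * F (t + 1) b)) :
    ∀ a b, a0 ≤ a → F a b ≤ 2 * C0 * q ^ (b - a) := by
  have key : ∀ n a b, a0 ≤ a → b - a = n → F a b ≤ 2 * C0 * q ^ n := by
    intro n
    induction n using Nat.strong_induction_on with
    | _ n ih =>
      intro a b ha hn
      rcases Nat.eq_zero_or_pos n with h0 | hpos
      · subst h0
        have := hF1 a b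
        simp only [pow_zero, mul_one]
        linarith
      have hab : a ≤ b := by omega
      have hterm : ∀ t ∈ Icc a b,
          J t * (F a (t - 1) * F (t + 1) b) ≤ J t * (4 * C0 ^ 2 * q ^ (n - 2)) := by
        intro t ht
        rw [mem_Icc] at ht
        apply mul_le_mul_of_nonneg_left _ (hJ t)
        have h1 : F a (t - 1) ≤ 2 * C0 * q ^ (t - 1 - a) := by
          rcases Nat.lt_or_ge (t - 1 - a) n with h | h
          · exact ih _ h a (t - 1) ha rfl
          · omega
        have h2 : F (t + 1) b ≤ 2 * C0 * q ^ (b - (t + 1)) := by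
          rcases Nat.lt_or_ge (b - (t + 1)) n with h | h
          · exact ih _ h (t + 1) b (by omega) rfl
          · omega
        calc F a (t - 1) * F (t + 1) b
            ≤ (2 * C0 * q ^ (t - 1 - a)) * (2 * C0 * q ^ (b - (t + 1))) :=
              mul_le_mul h1 h2 (hF0 _ _) (by positivity)
          _ = 4 * C0 ^ 2 * q ^ ((t - 1 - a) + (b - (t + 1))) := by rw [pow_add]; ring
          _ ≤ 4 * C0 ^ 2 * q ^ (n - 2) := by
              apply mul_le_mul_of_nonneg_left _ (by positivity)
              exact pow_le_pow_of_le_one hq.le hq1 (by omega)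
      have hsum : ∑ t ∈ Icc a b, J t * (F a (t - 1) * F (t + 1) b) ≤
          q ^ 2 / (4 * C0) * (4 * C0 ^ 2 * q ^ (n - 2)) := by
        calc ∑ t ∈ Icc a b, J t * (F a (t - 1) * F (t + 1) b)
            ≤ ∑ t ∈ Icc a b, J t * (4 * C0 ^ 2 * q ^ (n - 2)) := sum_le_sum hterm
          _ = (∑ t ∈ Icc a b, J t) * (4 * C0 ^ 2 * q ^ (n - 2)) := by rw [sum_mul]
          _ ≤ _ := mul_le_mul_of_nonneg_right (hJs a b ha) (by positivity)
      have hq2 : q ^ 2 * q ^ (n - 2) ≤ q ^ n := by
        rw [← pow_add]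
        exact pow_le_pow_of_le_one hq.le hq1 (by omega)
      have e : q ^ 2 / (4 * C0) * (4 * C0 ^ 2 * q ^ (n - 2)) = C0 * (q ^ 2 * q ^ (n - 2)) := by
        field_simp
      have h3 := hrec a b ha hab
      rw [hn] at h3
      rw [e] at hsum
      nlinarith [mul_le_mul_of_nonneg_left hq2 (by linarith : (0:ℝ) ≤ C0)]
  intro a b ha
  exact key _ a b ha rfl

end Pool.Agent.H25.Q1
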