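import Mathlib
import Pool.Agent.Q1.M6f.HoloJ

/-!
# From the relation for single lattice steps to `LocRel`

Chapter C gives the relation of the responses for a displacement by ONE lattice step, with an error
`ε / R`; together with the equicontinuity of the one-step increments on the scale `ρ R` it gives the
relation for the displacements by `n = ⌊ρ R⌋` steps.
-/

namespace Pool.Agent.H25.Q1.Step

open Set Filter Topology Finset
open Pool.Agent.H25.Q1.Close Pool.Agent.Q1.M4 Pool.Agent.Q1.M6f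

/-- Translation by `k` steps of the vector `p`. -/
def sh (v p : ℤ × ℤ) (k : ℕ) : ℤ × ℤ := (v.1 + k * p.1, v.2 + k * p.2)

theorem sh_zero (v p : ℤ × ℤ) : sh v p 0 = v := by simp [sh]

theorem sh_succ (v p : ℤ × ℤ) (k : ℕ) : sh v p (k + 1) = sh (sh v p k) p 1 := by
  simp only [sh, Nat.cast_add, Nat.cast_one]
  ext
  · simp; ring
  · simp; ring

theorem tele (H : ℤ × ℤ → ℂ) (v p : ℤ × ℤ) (n : ℕ) :
    H (sh v p n) - H v = ∑ k ∈ range n, (H (sh (sh v p k) p 1) - H (sh v p k)) := by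
  induction n with
  | zero => simp [sh_zero]
  | succ n ih => rw [sum_range_succ, ← ih, ← sh_succ]; ring

/-- Finite form. -/
theorem rel_of_step {H : ℤ × ℤ → ℂ} {v p q : ℤ × ℤ} {n : ℕ} {g g' : ℂ} {e e' C : ℝ} (hg' : ‖g'‖ ≤ C)
    (h1 : ∀ k < n, ‖g * (H (sh (sh v p k) p 1) - H (sh v p k)) + g' * (H (sh (sh v p k) q 1) - H (sh v p k))‖ ≤ e)
    (h2 : ∀ k < n, ‖(H (sh (sh v p k) q 1) - H (sh v p k)) - (H (sh (sh v q k) q 1) - H (sh v q k))‖ ≤ e') :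
    ‖g * (H (sh v p n) - H v) + g' * (H (sh v q n) - H v)‖ ≤ n * (e + C * e') := by
  have key : g * (H (sh v p n) - H v) + g' * (H (sh v q n) - H v) =
      ∑ k ∈ range n, ((g * (H (sh (sh v p k) p 1) - H (sh v p k)) +
        g' * (H (sh (sh v p k) q 1) - H (sh v p k))) -
        g' * ((H (sh (sh v p k) q 1) - H (sh v p k)) - (H (sh (sh v q k) q 1) - H (sh v q k)))) := by
    rw [tele, tele H v q, mul_sum, mul_sum, ← sum_add_distrib]
    exact sum_congr rfl fun k _ => by ring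
  rw [key]
  refine (norm_sum_le _ _).trans ?_
  have hC : 0 ≤ C := (norm_nonneg _).trans hg'
  have : ∀ k ∈ range n, ‖(g * (H (sh (sh v p k) p 1) - H (sh v p k)) +
        g' * (H (sh (sh v p k) q 1) - H (sh v p k))) -
        g' * ((H (sh (sh v p k) q 1) - H (sh v p k)) - (H (sh (sh v q k) q 1) - H (sh v q k)))‖ ≤ e + C * e' := by
    intro k hk
    have hk' := mem_range.1 hk
    refine (norm_sub_le _ _).trans (add_le_add (h1 k hk') ?_)
    rw [norm_mul]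
    exact mul_le_mul hg' (h2 k hk') (norm_nonneg _) hC
  refine (sum_le_sum this).trans ?_
  rw [sum_const, card_range, nsmul_eq_mul]

/-- The relation for single steps. -/
structure StepRel (R : ℕ → ℝ) (F : Filter ℕ) (H : ℕ → ℤ × ℤ → ℂ) (z0 : ℂ) (r : ℝ) : Prop where
  hold : ∃ C > 0, ∀ᶠ j in F, ∀ v w : ℤ × ℤ, ‖lat v / (R j : ℂ) - z0‖ < r →
    ‖lat w / (R j : ℂ) - z0‖ < r → ‖H j v - H j w‖ ≤ C * (‖lat v - lat w‖ / R j) ^ (2 / 3 : ℝ)
  rel : ∃ C c : ℝ, 0 < c ∧ ∀ ε > 0, ∀ Y : ℝ, ∃ ρ0 > 0, ∀ ρ : ℝ, 0 < ρ → ρ < ρ0 → ∀ᶠ j in F,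
    ∃ G : ℂ → ℂ, GHyp C c Y G ∧ ∀ s : ℝ, |s| ≤ 1 → ∀ v : ℤ × ℤ, ‖lat v / (R j : ℂ) - z0‖ < r →
    ‖G (pt s) * (H j (v.1 + 1, v.2 + 1) - H j v) +
      G (pt s + (Real.pi / 2 : ℝ)) * (H j (v.1 + 1, v.2 - 1) - H j v)‖ ≤ ε / R j
  cont : ∀ ε > 0, ∃ ρ0 > 0, ∀ ρ : ℝ, 0 < ρ → ρ < ρ0 → ∀ᶠ j in F, ∀ v w : ℤ × ℤ,
    ‖lat v / (R j : ℂ) - z0‖ < r → ‖lat w / (R j : ℂ) - z0‖ < r → ‖lat v - lat w‖ ≤ ρ * R j →
    ‖(H j (v.1 + 1, v.2 - 1) - H j v) - (H j (w.1 + 1, w.2 - 1) - H j w)‖ ≤ ε / R j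

theorem lat_sh (v p : ℤ × ℤ) (k : ℕ) : lat (sh v p k) = lat v + k * lat p := by
  apply Complex.ext <;> simp [lat, sh]

theorem norm_lat_le {p : ℤ × ℤ} (h1 : |(p.1 : ℝ)| ≤ 1) (h2 : |(p.2 : ℝ)| ≤ 1) : ‖lat p‖ ≤ 2 := by
  have := Complex.norm_le_abs_re_add_abs_im (lat p)
  simp only [lat] at this ⊢
  linarith

theorem norm_pt_le {C c Y : ℝ} {G : ℂ → ℂ} (h : GHyp C c Y G) (hY : 1 < Y) {s : ℝ} (hs : |s| ≤ 1) :
    ‖G (pt s + (Real.pi / 2 : ℝ))‖ ≤ |C| * Real.exp 1 := by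
  refine (h.bound _ (pt_add_mem_UY hY hs)).trans ?_
  have e : (pt s + (Real.pi / 2 : ℝ)).im = s := by rw [Complex.add_im, pt_im, Complex.ofReal_im, add_zero]
  rw [e]
  have e1 : Real.exp s ≤ Real.exp 1 := Real.exp_le_exp.2 ((le_abs_self s).trans hs)
  calc C * Real.exp s ≤ |C| * Real.exp s := mul_le_mul_of_nonneg_right (le_abs_self C) (Real.exp_pos _).le
    _ ≤ |C| * Real.exp 1 := mul_le_mul_of_nonneg_left e1 (abs_nonneg C)

/-- **Single steps give `LocRel`.** -/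
theorem StepRel.locRel {R : ℕ → ℝ} {F : Filter ℕ} (hR : Tendsto R F atTop) {H : ℕ → ℤ × ℤ → ℂ} {z0 : ℂ}
    {r r' : ℝ} (hrr : r < r') (h : StepRel R F H z0 r') : LocRel R F H z0 r := by
  obtain ⟨⟨Ch, hCh, hhold⟩, ⟨C, c, hc, hrel⟩, hcont⟩ := h
  constructor
  · refine ⟨Ch, hCh, ?_⟩
    filter_upwards [hhold] with j hj v w hv hw
    exact hj v w (hv.trans hrr) (hw.trans hrr)
  refine ⟨C, c, hc, fun ε hε Y => ?_⟩
  set K := |C| * Real.exp 1 + 1 with hK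
  have hK0 : 0 < K := by positivity
  obtain ⟨ρ1, hρ1, h1⟩ := hrel (ε / 2) (by positivity) (max Y 2)
  obtain ⟨ρ2, hρ2, h2⟩ := hcont (ε / (2 * K)) (by positivity)
  refine ⟨min (min ρ1 (ρ2 / 4)) ((r' - r) / 4), by
    have : 0 < r' - r := by linarith
    positivity, fun ρ hρ hρlt => ?_⟩
  have a1 : ρ < ρ1 := hρlt.trans_le ((min_le_left _ _).trans (min_le_left _ _))
  have a2 : 4 * ρ < ρ2 := by
    have := hρlt.trans_le ((min_le_left _ _).trans (min_le_right _ _))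
    linarith
  have a3 : ρ < (r' - r) / 4 := hρlt.trans_le (min_le_right _ _)
  filter_upwards [h1 ρ hρ a1, h2 (4 * ρ) (by positivity) a2, hR.eventually_gt_atTop 0] with j hj1 hj2 hRj
  obtain ⟨G, hG, hGr⟩ := hj1
  refine ⟨G, hG.mono (le_max_left _ _), fun s hs v hv => ?_⟩
  set n := ⌊ρ * R j⌋₊ with hn
  have hnR : (n : ℝ) ≤ ρ * R j := Nat.floor_le (by positivity)
  have hRc : ((R j : ℝ) : ℂ) ≠ 0 := by exact_mod_cast hRj.ne'
  -- points stay in the larger disc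
  have hin : ∀ p : ℤ × ℤ, ‖lat p‖ ≤ 2 → ∀ k < n, ‖lat (sh v p k) / (R j : ℂ) - z0‖ < r' := by
    intro p hp k hk
    have e : lat (sh v p k) / (R j : ℂ) - z0 = (lat v / (R j : ℂ) - z0) + (k * lat p) / (R j : ℂ) := by
      rw [lat_sh]; field_simp; ring
    rw [e]
    refine (norm_add_le _ _).trans_lt ?_
    have hk' : (k : ℝ) ≤ ρ * R j := (Nat.cast_le.2 hk.le).trans hnR
    have : ‖((k : ℂ) * lat p) / (R j : ℂ)‖ ≤ 2 * ρ := by
      rw [norm_div, norm_mul, Complex.norm_natCast, Complex.norm_real, Real.norm_of_nonneg hRj.le,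
        div_le_iff₀ hRj]
      have := mul_le_mul hk' hp (norm_nonneg _) (by positivity)
      linarith
    linarith
  have hp : ‖lat ((1, 1) : ℤ × ℤ)‖ ≤ 2 := norm_lat_le (by simp) (by simp)
  have hq : ‖lat ((1, -1) : ℤ × ℤ)‖ ≤ 2 := norm_lat_le (by simp) (by simp)
  have hgn : ‖G (pt s + (Real.pi / 2 : ℝ))‖ ≤ K :=
    (norm_pt_le hG (by have := le_max_right Y 2; linarith) hs).trans (by rw [hK]; linarith)
  have s1 : ∀ w : ℤ × ℤ, sh w (1, 1) 1 = (w.1 + 1, w.2 + 1) := fun w => by simp [sh]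
  have s2 : ∀ w : ℤ × ℤ, sh w (1, -1) 1 = (w.1 + 1, w.2 - 1) := fun w => by
    simp [sh]; ring
  have fin := rel_of_step (H := H j) (v := v) (p := (1, 1)) (q := (1, -1)) (n := n) (g := G (pt s))
    (e := ε / 2 / R j) (e' := ε / (2 * K) / R j) hgn (fun k hk => by
      rw [s1, s2]
      exact hGr s hs _ (hin _ hp k hk)) (fun k hk => by
      rw [s2, s2]
      refine hj2 _ _ (hin _ hp k hk) (hin _ hq k hk) ?_
      rw [lat_sh, lat_sh]
      have e : lat v + (k : ℂ) * lat ((1, 1) : ℤ × ℤ) - (lat v + (k : ℂ) * lat ((1, -1) : ℤ × ℤ)) =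
        (k : ℂ) * (lat ((1, 1) : ℤ × ℤ) - lat ((1, -1) : ℤ × ℤ)) := by ring
      rw [e, norm_mul, Complex.norm_natCast]
      have hk' : (k : ℝ) ≤ ρ * R j := (Nat.cast_le.2 hk.le).trans hnR
      have h4 : ‖lat ((1, 1) : ℤ × ℤ) - lat ((1, -1) : ℤ × ℤ)‖ ≤ 4 := (norm_sub_le _ _).trans (by linarith)
      have := mul_le_mul hk' h4 (norm_nonneg _) (by positivity)
      linarith)
  have f1 : sh v (1, 1) n = (v.1 + n, v.2 + n) := by simp [sh]
  have f2 : sh v (1, -1) n = (v.1 + n, v.2 - n) := by simp [sh]; ring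
  rw [f1, f2] at fin
  refine fin.trans ?_
  have e1 : ε / 2 / R j + K * (ε / (2 * K) / R j) = ε / R j := by field_simp; ring
  rw [e1]
  have : (n : ℝ) * (ε / R j) ≤ (ρ * R j) * (ε / R j) := mul_le_mul_of_nonneg_right hnR (by positivity)
  refine this.trans (le_of_eq ?_)
  field_simp

end Pool.Agent.H25.Q1.Step
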